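import Mathlib
import Pool.Agent.Y61.MB.M1
set_option autoImplicit false

/-! Densities which depend on the lengths of several blocks of coordinates: one step. -/

namespace Pool.Agent.Y61.MB

open MeasureTheory Set Complex Metric
open scoped ENNReal RealInnerProductSpace
open Pool.Agent.H789R2.FR (E sg T sg_finite sg_ae)
open Pool.Agent.H438R2.BR (Phi J J_mp J_inner)
open Pool.Agent.H438R2.BR.T10 (e0 e0_norm)
open Pool.Agent.H438R2.PD (P1 P2 P1_meas P2_meas T_meas' T_le T_comp P1_J P2_J)
open Pool.Agent.TH335.RF hiding P1_J P2_J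

/-- `F x` depends only on the lengths of the blocks of coordinates given by `b`, and for blocks
with one element on the coordinate itself. -/
def Inv {n r : ℕ} (b : Fin n → Fin r) (F : E n → ℂ) : Prop :=
  ∀ x y : E n, (∀ β, ∑ i with b i = β, x i ^ 2 = ∑ i with b i = β, y i ^ 2) →
    (∀ i, (∀ j, b j = b i → j = i) → x i = y i) → F x = F y

theorem J_left {k m : ℕ} (x : E k) (y : E m) (i : Fin k) : (J x y) (Fin.castAdd m i) = x i := by
  simp [J, Fin.append_left]

theorem J_right {k m : ℕ} (x : E k) (y : E m) (i : Fin m) : (J x y) (Fin.natAdd k i) = y i := by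
  simp [J, Fin.append_right]

theorem J_P {k m : ℕ} (z : E (k + m)) : J (P1 k m z) (P2 k m z) = z := by
  ext i
  refine Fin.addCases (fun j => ?_) (fun j => ?_) i
  · rw [J_left]; rfl
  · rw [J_right]; rfl

/-- change of the order of the coordinates -/
theorem perm {n r : ℕ} (b : Fin n → Fin r) (σ : Fin n ≃ Fin n) (q : ℝ)
    (h : RTC n q (Inv (b ∘ σ))) : RTC n q (Inv b) := by
  obtain ⟨C, hC, hT⟩ := h
  refine ⟨C, hC, fun g hg hb hI => ?_⟩
  set L : E n ≃ₗᵢ[ℝ] E n := LinearIsometryEquiv.piLpCongrLeft 2 ℝ ℝ σ with hL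
  have hLi : ∀ (x : E n) (j : Fin n), (L x) (σ j) = x j := by
    intro x j
    rw [hL]
    simp [LinearIsometryEquiv.piLpCongrLeft_apply]
  have hg' : Measurable fun x => g (L x) := hg.comp L.continuous.measurable
  have h1 := hT (fun x => g (L x)) hg' (fun x => hb _) ?_
  · have h2 : ∫⁻ z, ‖T (fun x => g (L x)) z‖ₑ ^ q = ∫⁻ z, ‖T g z‖ₑ ^ q := by
      simp_rw [T_comp]
      exact L.measurePreserving.lintegral_comp ((T_meas' g hg).enorm.pow_const q)
    rwa [h2] at h1
  · intro x y hxy hs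
    apply hI
    · intro β
      have h3 : ∀ z : E n, ∑ i with b i = β, (L z) i ^ 2 = ∑ i with (b ∘ σ) i = β, z i ^ 2 := by
        intro z
        rw [Finset.sum_filter, Finset.sum_filter, ← Equiv.sum_comp σ]
        refine Finset.sum_congr rfl fun i _ => ?_
        rw [hLi]
        rfl
      rw [h3, h3]
      exact hxy β
    · intro i hi
      obtain ⟨j, rfl⟩ := σ.surjective i
      rw [hLi, hLi]
      apply hs
      intro l hl
      exact σ.injective (hi _ hl)

/-- the block map after the replacement of the first block by one coordinate -/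
def bp {k m r : ℕ} (b : Fin (k + m) → Fin r) (β : Fin r) : Fin (1 + m) → Fin r :=
  Fin.addCases (fun _ => β) (fun j => b (Fin.natAdd k j))

theorem bp_left {k m r : ℕ} (b : Fin (k + m) → Fin r) (β : Fin r) (i : Fin 1) :
    bp b β (Fin.castAdd m i) = β := by simp [bp]

theorem bp_right {k m r : ℕ} (b : Fin (k + m) → Fin r) (β : Fin r) (j : Fin m) :
    bp b β (Fin.natAdd 1 j) = b (Fin.natAdd k j) := by simp [bp]

theorem sum_split {k m r : ℕ} (b : Fin (k + m) → Fin r) (γ : Fin r) (z : E (k + m)) :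
    ∑ i with b i = γ, z i ^ 2 = ∑ i with b (Fin.castAdd m i) = γ, (P1 k m z) i ^ 2 +
      ∑ j with b (Fin.natAdd k j) = γ, (P2 k m z) j ^ 2 := by
  rw [Finset.sum_filter, Fin.sum_univ_add, Finset.sum_filter, Finset.sum_filter]
  rfl

theorem norm_blocks {m r : ℕ} (c : Fin m → Fin r) (y : E m) :
    ‖y‖ ^ 2 = ∑ γ, ∑ j with c j = γ, y j ^ 2 := by
  rw [Finset.sum_fiberwise, EuclideanSpace.real_norm_sq_eq]

theorem gu_inv {k m r : ℕ} (b : Fin (k + m) → Fin r) (β : Fin r)
    (h2 : ∀ j : Fin m, b (Fin.natAdd k j) ≠ β) (F : E m → ℂ)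
    (hF : Inv (fun j => b (Fin.natAdd k j)) F) : Inv (bp b β) (gu k F) := by
  intro x y hxy hs
  have h0 : (P1 1 m x) 0 = (P1 1 m y) 0 := by
    have := hs (Fin.castAdd m 0) (by
      intro j
      refine Fin.addCases (fun i => ?_) (fun i => ?_) j
      · intro _
        rw [Subsingleton.elim i 0]
      · intro h
        rw [bp_left, bp_right] at h
        exact absurd h (h2 i))
    exact this
  have hP : F (P2 1 m x) = F (P2 1 m y) := by
    apply hF
    · intro γ
      have h3 := hxy γ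
      rw [sum_split, sum_split] at h3
      simp only [bp_left, bp_right] at h3
      by_cases hγ : β = γ
      · have h4 : ∀ z : E m, ∑ j with b (Fin.natAdd k j) = γ, z j ^ 2 = 0 := by
          intro z
          rw [Finset.sum_filter]
          refine Finset.sum_eq_zero fun j _ => ?_
          rw [if_neg]
          rw [← hγ]
          exact h2 j
        rw [h4, h4]
      · simpa [hγ] using h3
    · intro j hj
      have := hs (Fin.natAdd 1 j) (by
        intro l
        refine Fin.addCases (fun i => ?_) (fun i => ?_) l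
        · intro h
          rw [bp_left, bp_right] at h
          exact absurd h.symm (h2 j)
        · intro h
          rw [bp_right, bp_right] at h
          rw [hj i h])
      exact this
  unfold gu
  by_cases hx : x ∈ {z : E (1 + m) | 0 < (P1 1 m z) 0 ∧ (P1 1 m z) 0 ≤ 1}
  · have hy : y ∈ {z : E (1 + m) | 0 < (P1 1 m z) 0 ∧ (P1 1 m z) 0 ≤ 1} := by
      simp only [mem_ofPred_eq] at hx ⊢
      rw [← h0]
      exact hx
    rw [indicator_of_mem hx, indicator_of_mem hy, h0, hP]
  · have hy : y ∉ {z : E (1 + m) | 0 < (P1 1 m z) 0 ∧ (P1 1 m z) 0 ≤ 1} := by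
      simp only [mem_ofPred_eq] at hx ⊢
      rw [← h0]
      exact hx
    rw [indicator_of_notMem hx, indicator_of_notMem hy]

/-- a unit vector -/
noncomputable def ue (k : ℕ) (hk : 2 ≤ k) : E k := EuclideanSpace.single ⟨0, by omega⟩ 1

theorem ue_norm (k : ℕ) (hk : 2 ≤ k) : ‖ue k hk‖ = 1 := by simp [ue]

/-- the density as a function on the ball -/
noncomputable def Fo {k m : ℕ} (hk : 2 ≤ k) (g : E (k + m) → ℂ) (y : E m) : ℂ :=
  g (J (wt y • ue k hk) y)

theorem Fo_meas {k m : ℕ} (hk : 2 ≤ k) (g : E (k + m) → ℂ) (hg : Measurable g) :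
    Measurable (Fo hk g) := by
  unfold Fo
  have h1 : Measurable fun p : E k × E m => J p.1 p.2 := (J_mp k m).measurable
  have h2 : Measurable fun y : E m => ((wt y • ue k hk, y) : E k × E m) :=
    (wt_meas.smul_const _).prodMk measurable_id
  exact hg.comp (h1.comp h2)

theorem Fo_inv {k m r : ℕ} (hk : 2 ≤ k) (b : Fin (k + m) → Fin r) (β : Fin r)
    (h1 : ∀ i : Fin k, b (Fin.castAdd m i) = β) (g : E (k + m) → ℂ) (hg : Inv b g) :
    Inv (fun j => b (Fin.natAdd k j)) (Fo hk g) := by
  intro x y hxy hs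
  have hn : ‖x‖ ^ 2 = ‖y‖ ^ 2 := by
    rw [norm_blocks (fun j => b (Fin.natAdd k j)), norm_blocks (fun j => b (Fin.natAdd k j))]
    exact Finset.sum_congr rfl fun γ _ => hxy γ
  have hw : wt x = wt y := by unfold wt; rw [hn]
  unfold Fo
  rw [hw]
  apply hg
  · intro γ
    rw [sum_split, sum_split, P1_J, P1_J, P2_J, P2_J, hxy γ]
  · intro i
    refine Fin.addCases (fun j => ?_) (fun j => ?_) i
    · intro _
      rw [J_left, J_left]
    · intro hj
      rw [J_right, J_right]
      apply hs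
      intro l hl
      have := hj (Fin.natAdd k l) hl
      exact (Fin.natAdd_inj k).1 this

theorem Fo_eq {k m r : ℕ} (hk : 2 ≤ k) (b : Fin (k + m) → Fin r) (β : Fin r)
    (h1 : ∀ i : Fin k, b (Fin.castAdd m i) = β) (g : E (k + m) → ℂ) (hg : Inv b g)
    (z : E (k + m)) (hz : ‖z‖ = 1) : g z = Fo hk g (P2 k m z) := by
  have hz2 : ‖P1 k m z‖ ^ 2 + ‖P2 k m z‖ ^ 2 = 1 := by
    have h3 := J_inner (P1 k m z) (P1 k m z) (P2 k m z) (P2 k m z)
    rw [J_P, real_inner_self_eq_norm_sq, real_inner_self_eq_norm_sq,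
      real_inner_self_eq_norm_sq, hz] at h3
    linarith
  have hw : wt (P2 k m z) = ‖P1 k m z‖ := by
    unfold wt
    rw [← hz2, add_sub_cancel_right, Real.sqrt_sq (norm_nonneg _)]
  unfold Fo
  rw [hw]
  apply hg
  · intro γ
    rw [sum_split, sum_split, P1_J, P2_J]
    congr 1
    simp only [h1]
    by_cases hγ : β = γ
    · simp only [hγ, Finset.filter_true]
      rw [← EuclideanSpace.real_norm_sq_eq, ← EuclideanSpace.real_norm_sq_eq, norm_smul, ue_norm,
        mul_one, norm_norm]
    · simp [hγ]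
  · intro i
    refine Fin.addCases (fun j => ?_) (fun j => ?_) i
    · intro hj
      exfalso
      -- another element of the block
      obtain ⟨l, hl⟩ : ∃ l : Fin k, l ≠ j := by
        have : Nontrivial (Fin k) := Fin.nontrivial_iff_two_le.2 hk
        exact exists_ne j
      have := hj (Fin.castAdd m l) (by rw [h1, h1])
      exact hl ((Fin.castAdd_inj).1 this)
    · intro _
      rw [J_right]
      rfl

/-- one step -/
theorem step {k m r : ℕ} (hk : 2 ≤ k) (hm : 1 ≤ m) (b : Fin (k + m) → Fin r) (β : Fin r)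
    (h1 : ∀ i : Fin k, b (Fin.castAdd m i) = β) (h2 : ∀ j : Fin m, b (Fin.natAdd k j) ≠ β)
    (P q : ℝ) (hP : 2 < P) (hR : RTC (1 + m) P (Inv (bp b β)))
    (h : 1 < (q - 2) * (((k : ℝ) - 1) / 2 + 1 / (P - 2))) : RTC (k + m) q (Inv b) := by
  obtain ⟨C, hC, hT⟩ := T_boundC (Inv (fun j => b (Fin.natAdd k j))) k hk hm P q hP
    (hyp_of_restC _ _ k hk hm P hR fun F _ _ hF => gu_inv b β h2 F hF) h
  refine ⟨C, hC, fun g hg hb hI => ?_⟩
  have h3 : ∀ z, T g z = T (fun z : E (k + m) => Fo hk g (P2 k m z)) z := by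
    intro z
    unfold T
    refine integral_congr_ae ?_
    filter_upwards [sg_ae (k + m)] with w hw
    rw [← Fo_eq hk b β h1 g hI w hw]
  simp only [h3]
  exact hT (Fo hk g) (Fo_meas hk g hg) (fun y => hb _) (Fo_inv hk b β h1 g hI)

/-- the base case for two blocks -/
theorem base2 {k : ℕ} (hk : 2 ≤ k) (b : Fin (k + 1) → Fin 2) (β : Fin 2)
    (h1 : ∀ i : Fin k, b (Fin.castAdd 1 i) = β)
    (q : ℝ) (h : 1 < (q - 2) * (((k : ℝ) - 1) / 2 + 1 / 2)) : RTC (k + 1) q (Inv b) := by
  obtain ⟨C, hC, hT⟩ := T_bound (m := 1) k hk le_rfl 4 q (by norm_num) (hyp_one k hk) (by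
    norm_num at h ⊢
    exact h)
  refine ⟨C, hC, fun g hg hb hI => ?_⟩
  have h3 : ∀ z, T g z = T (fun z : E (k + 1) => Fo hk g (P2 k 1 z)) z := by
    intro z
    unfold T
    refine integral_congr_ae ?_
    filter_upwards [sg_ae (k + 1)] with w hw
    rw [← Fo_eq hk b β h1 g hI w hw]
  simp only [h3]
  exact hT (Fo hk g) (Fo_meas hk g hg) (fun y => hb _)

end Pool.Agent.Y61.MB
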