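import Mathlib
import Pool.Agent.Y61.MB.M2
set_option autoImplicit false

/-! Densities which depend on the lengths of several blocks of coordinates: induction. -/

namespace Pool.Agent.Y61.MB

open MeasureTheory Set Complex Metric
open scoped ENNReal RealInnerProductSpace
open Pool.Agent.H789R2.FR (E sg T sg_finite sg_ae)
open Pool.Agent.TH335.RF hiding P1_J P2_J

/-- the block with number `β` can be moved to the first place -/
theorem split {n r : ℕ} (b : Fin n → Fin r) (β : Fin r) : ∃ (k m : ℕ) (σ : Fin (k + m) ≃ Fin n),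
    (∀ i : Fin k, b (σ (Fin.castAdd m i)) = β) ∧ (∀ j : Fin m, b (σ (Fin.natAdd k j)) ≠ β) := by
  classical
  set k := Fintype.card {i : Fin n // b i = β} with hk
  set m := Fintype.card {i : Fin n // ¬ b i = β} with hm
  let e1 : Fin k ≃ {i : Fin n // b i = β} := (Fintype.equivFin _).symm
  let e2 : Fin m ≃ {i : Fin n // ¬ b i = β} := (Fintype.equivFin _).symm
  refine ⟨k, m, finSumFinEquiv.symm.trans ((Equiv.sumCongr e1 e2).trans
    (Equiv.sumCompl fun i => b i = β)), fun i => ?_, fun j => ?_⟩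
  · simp only [Equiv.trans_apply, finSumFinEquiv_symm_apply_castAdd, Equiv.sumCongr_apply,
      Sum.map_inl, Equiv.sumCompl_apply_inl]
    exact (e1 i).2
  · simp only [Equiv.trans_apply, finSumFinEquiv_symm_apply_natAdd, Equiv.sumCongr_apply,
      Sum.map_inr, Equiv.sumCompl_apply_inr]
    exact (e2 j).2

theorem bp_surj {k m r : ℕ} (hk : 1 ≤ k) (b : Fin (k + m) → Fin r) (β : Fin r)
    (h1 : ∀ i : Fin k, b (Fin.castAdd m i) = β) (hb : Function.Surjective b) :
    Function.Surjective (bp b β) := by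
  intro γ
  obtain ⟨i, hi⟩ := hb γ
  induction i using Fin.addCases with
  | left i =>
    refine ⟨Fin.castAdd m 0, ?_⟩
    rw [bp_left, ← hi, h1]
  | right j =>
    refine ⟨Fin.natAdd 1 j, ?_⟩
    rw [bp_right, hi]

theorem exists_P' (k : ℕ) (hk : 2 ≤ k) (B q : ℝ) (hB : 0 < B)
    (h : 1 < (q - 2) * (((k : ℝ) - 1) / 2 + B)) : ∃ P : ℝ, 2 < P ∧ 1 < (P - 2) * B ∧
    1 < (q - 2) * (((k : ℝ) - 1) / 2 + 1 / (P - 2)) := by
  have hk' : (2 : ℝ) ≤ k := by exact_mod_cast hk
  have hq : 0 < q - 2 := by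
    by_contra hc
    have : (q - 2) * (((k : ℝ) - 1) / 2 + B) ≤ 0 :=
      mul_nonpos_of_nonpos_of_nonneg (not_lt.1 hc) (by linarith)
    linarith
  have h1 : 1 / (q - 2) - ((k : ℝ) - 1) / 2 < B := by
    have h2 : 1 / (q - 2) < ((k : ℝ) - 1) / 2 + B := by
      rw [div_lt_iff₀ hq, mul_comm]
      exact h
    linarith
  obtain ⟨v, hv1, hv2⟩ := exists_between (max_lt h1 hB)
  have hv0 : 0 < v := lt_of_le_of_lt (le_max_right _ _) hv1
  have hv3 : 1 / (q - 2) - ((k : ℝ) - 1) / 2 < v := lt_of_le_of_lt (le_max_left _ _) hv1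
  refine ⟨2 + 1 / v, by linarith [one_div_pos.2 hv0], ?_, ?_⟩
  · rw [add_sub_cancel_left, one_div, inv_mul_eq_div, lt_div_iff₀ hv0, one_mul]
    exact hv2
  · rw [add_sub_cancel_left, one_div_one_div]
    have h4 : 1 / (q - 2) < ((k : ℝ) - 1) / 2 + v := by linarith
    rw [div_lt_iff₀ hq] at h4
    rw [mul_comm]
    exact h4

/-- the step for arbitrary block maps -/
theorem step' {n r : ℕ} (hr : 2 ≤ r) (b : Fin n → Fin r) (hb : Function.Surjective b)
    (β : Fin r) (hβ : ∃ i j, i ≠ j ∧ b i = β ∧ b j = β) (θ q : ℝ) (hθ : 0 < θ)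
    (h : 1 < (q - 2) * (((n : ℝ) - r) / 2 + θ))
    (hR : ∀ (n' : ℕ) (b' : Fin n' → Fin r), Function.Surjective b' → n' < n →
      (∃ i, b' i = β ∧ ∀ j, b' j = b' i → j = i) →
      (∀ γ, γ ≠ β → (∃ i j, i ≠ j ∧ b i = γ ∧ b j = γ) → 2 < n') →
      ∀ P : ℝ, 2 < P → 1 < (P - 2) * (((n' : ℝ) - r) / 2 + θ) → RTC n' P (Inv b')) :
    RTC n q (Inv b) := by
  obtain ⟨k, m, σ, h1, h2⟩ := split b β
  have hn : n = k + m := by
    have := Fintype.card_congr σ
    simpa using this.symm
  subst hn
  apply perm b σ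
  obtain ⟨i, j, hij, hi, hj⟩ := hβ
  have hi' : ∃ i' : Fin k, σ (Fin.castAdd m i') = i := by
    obtain ⟨l, rfl⟩ := σ.surjective i
    induction l using Fin.addCases with
    | left l => exact ⟨l, rfl⟩
    | right l => exact absurd hi (h2 l)
  have hj' : ∃ j' : Fin k, σ (Fin.castAdd m j') = j := by
    obtain ⟨l, rfl⟩ := σ.surjective j
    induction l using Fin.addCases with
    | left l => exact ⟨l, rfl⟩
    | right l => exact absurd hj (h2 l)
  obtain ⟨i', rfl⟩ := hi'
  obtain ⟨j', rfl⟩ := hj'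
  have hk : 2 ≤ k := by
    rw [← Fin.nontrivial_iff_two_le]
    exact ⟨i', j', fun h => hij (by rw [h])⟩
  have hsurj : Function.Surjective (b ∘ σ) := hb.comp σ.surjective
  have hm : 1 ≤ m := by
    -- another block
    have : Nontrivial (Fin r) := Fin.nontrivial_iff_two_le.2 hr
    obtain ⟨γ, hγ⟩ := exists_ne β
    obtain ⟨l, hl⟩ := hsurj γ
    induction l using Fin.addCases with
    | left l => exact absurd ((h1 l).symm.trans hl).symm hγ
    | right l => exact Fin.pos l
  have hk' : (2 : ℝ) ≤ k := by exact_mod_cast hk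
  have hsurj' : Function.Surjective (bp (b ∘ σ) β) := bp_surj (by omega) _ β h1 hsurj
  have hcard : r ≤ 1 + m := by
    have := Fintype.card_le_of_surjective _ hsurj'
    simpa using this
  have hcard' : (r : ℝ) ≤ 1 + m := by exact_mod_cast hcard
  have hB : 0 < (((1 + m : ℕ) : ℝ) - r) / 2 + θ := by
    push_cast
    have : 0 ≤ ((1 + (m : ℝ)) - r) / 2 := by linarith
    linarith
  obtain ⟨P, hP, hPB, hPq⟩ := exists_P' k hk ((((1 + m : ℕ) : ℝ) - r) / 2 + θ) q hB (by
    refine lt_of_lt_of_le h (le_of_eq ?_)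
    congr 1
    push_cast
    ring)
  refine step hk hm (b ∘ σ) β h1 h2 P q hP ?_ hPq
  refine hR (1 + m) (bp (b ∘ σ) β) hsurj' (by omega) ⟨Fin.castAdd m 0, bp_left _ _ _, ?_⟩ ?_ P hP hPB
  · intro l hl
    induction l using Fin.addCases with
    | left l => rw [Subsingleton.elim l 0]
    | right l =>
      rw [bp_left, bp_right] at hl
      exact absurd hl (h2 l)
  · rintro γ hγ ⟨i, j, hij, hi, hj⟩
    have h3 : ∀ i : Fin (k + m), b i = γ → ∃ l : Fin m, σ (Fin.natAdd k l) = i := by
      intro i hi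
      obtain ⟨l, rfl⟩ := σ.surjective i
      induction l using Fin.addCases with
      | left l => exact absurd ((h1 l).symm.trans hi).symm hγ
      | right l => exact ⟨l, rfl⟩
    obtain ⟨i', rfl⟩ := h3 i hi
    obtain ⟨j', rfl⟩ := h3 j hj
    have : 2 ≤ m := by
      rw [← Fin.nontrivial_iff_two_le]
      exact ⟨i', j', fun h => hij (by rw [h])⟩
    omega

/-- general number of blocks -/
theorem multi (r : ℕ) (hr : 2 ≤ r) (θ : ℝ) (hθ : 0 < θ)
    (hbase : ∀ P : ℝ, 2 < P → 1 < (P - 2) * θ → RT r P) (n : ℕ) :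
    ∀ (b : Fin n → Fin r), Function.Surjective b → ∀ q : ℝ,
      1 < (q - 2) * (((n : ℝ) - r) / 2 + θ) → RTC n q (Inv b) := by
  induction n using Nat.strong_induction_on with
  | _ n ih =>
    intro b hb q h
    by_cases hinj : Function.Injective b
    · have hn : n = r := by
        have := Fintype.card_congr (Equiv.ofBijective b ⟨hinj, hb⟩)
        simpa using this
      subst hn
      have h1 : 1 < (q - 2) * θ := by simpa using h
      have h2 : 2 < q := by
        by_contra hc
        have : (q - 2) * θ ≤ 0 := mul_nonpos_of_nonpos_of_nonneg (by linarith) hθ.le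
        linarith
      obtain ⟨C, hC, hT⟩ := hbase q h2 h1
      exact ⟨C, hC, fun g hg hgb _ => hT g hg hgb⟩
    · rw [Function.Injective] at hinj
      push Not at hinj
      obtain ⟨i, j, hij, hne⟩ := hinj
      refine step' hr b hb (b i) ⟨i, j, hne, rfl, hij.symm⟩ θ q hθ h ?_
      intro n' b' hb' hn' _ _ P _ hP
      exact ih n' hn' b' hb' P hP

/-- two blocks -/
theorem two (n : ℕ) (hn : 3 ≤ n) (b : Fin n → Fin 2) (hb : Function.Surjective b) (q : ℝ)
    (h : 1 < (q - 2) * (((n : ℝ) - 1) / 2)) : RTC n q (Inv b) := by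
  -- a block with one element
  have key : ∀ (n : ℕ) (b : Fin n → Fin 2), Function.Surjective b → 3 ≤ n →
      (∃ i, ∀ j, b j = b i → j = i) → ∀ q : ℝ, 1 < (q - 2) * (((n : ℝ) - 1) / 2) →
      RTC n q (Inv b) := by
    intro n b hb hn hi q h
    obtain ⟨i, hi⟩ := hi
    -- the other block
    have hcase : ∀ β : Fin 2, β ≠ b i → ∀ j, j ≠ i → b j = β := by
      intro β hβ j hj
      have h1 : b j ≠ b i := fun h => hj (hi j h)
      omega
    obtain ⟨β, hβ⟩ := exists_ne (b i)
    obtain ⟨k, m, σ, h1, h2⟩ := split b β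
    have hn' : n = k + m := by
      have := Fintype.card_congr σ
      simpa using this.symm
    subst hn'
    have hm : m = 1 := by
      have h3 : ∀ j : Fin m, σ (Fin.natAdd k j) = i := by
        intro j
        by_contra hc
        exact h2 j (hcase β hβ _ hc)
      have h4 : Subsingleton (Fin m) :=
        ⟨fun x y => (Fin.natAdd_inj k).1 (σ.injective ((h3 x).trans (h3 y).symm))⟩
      have h5 : m ≤ 1 := by
        by_contra hc
        have : Nontrivial (Fin m) := Fin.nontrivial_iff_two_le.2 (by omega)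
        exact not_subsingleton (Fin m) h4
      have h6 : m ≠ 0 := by
        rintro rfl
        obtain ⟨l, hl⟩ := σ.surjective i
        induction l using Fin.addCases with
        | left l =>
          have := h1 l
          rw [hl] at this
          exact hβ this.symm
        | right l => exact l.elim0
      omega
    subst hm
    apply perm b σ
    refine base2 (by omega) (b ∘ σ) β h1 q ?_
    refine lt_of_lt_of_le h (le_of_eq ?_)
    congr 1
    push_cast
    ring
  by_cases hs : ∃ i, ∀ j, b j = b i → j = i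
  · exact key n b hb hn hs q h
  · push Not at hs
    have h2 : ∀ γ : Fin 2, ∃ i j, i ≠ j ∧ b i = γ ∧ b j = γ := by
      intro γ
      obtain ⟨i, hi⟩ := hb γ
      obtain ⟨j, hj, hji⟩ := hs i
      exact ⟨i, j, hji.symm, hi, hj.trans hi⟩
    refine step' le_rfl b hb 0 (h2 0) (1 / 2) q (by norm_num) (by
      refine lt_of_lt_of_le h (le_of_eq ?_)
      congr 1
      push_cast
      ring) ?_
    intro n' b' hb' _ hi hn' P _ hP
    refine key n' b' hb' ?_ ?_ P ?_
    · have := hn' 1 (by decide) (h2 1)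
      omega
    · obtain ⟨i, -, hi⟩ := hi
      exact ⟨i, hi⟩
    · refine lt_of_lt_of_le hP (le_of_eq ?_)
      congr 1
      push_cast
      ring

end Pool.Agent.Y61.MB
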