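import Mathlib
import Pool.Agent.Y61.MB.M1
set_option autoImplicit false

/-! Superpositions of modulated densities of a class. -/

namespace Pool.Agent.Y61.MB

open MeasureTheory Set Metric Complex
open Pool.Agent.TH335.RF hiding P1_J P2_J
open Pool.Agent.H438R2.PD (T_meas' T_comp)
open Pool.Agent.H789R2.FR (E sg T sg_finite)
open scoped ENNReal RealInnerProductSpace

/-- surface measure on the unit sphere -/
noncomputable def sigma (n : ℕ) : Measure (sphere (0 : E n) 1) := (volume : Measure (E n)).toSphere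

/-- the Fourier transform of the measure `g dσ` -/
noncomputable def ft {n : ℕ} (g : sphere (0 : E n) 1 → ℂ) (ξ : E n) : ℂ :=
  ∫ x, Complex.exp (-(2 * Real.pi * ⟪(x : E n), ξ⟫ : ℝ) * I) * g x ∂(sigma n)

theorem ft_eq {n : ℕ} (g : sphere (0 : E n) 1 → ℂ) (G : E n → ℂ) (hG : Measurable G)
    (hg : ∀ᵐ x ∂(sigma n), g x = G x) (ξ : E n) : ft g ξ = T G ((2 * Real.pi) • ξ) := by
  unfold T ft
  have m1 : Measurable fun w : E n =>
      Complex.exp (-((⟪(2 * Real.pi) • ξ, w⟫ : ℝ) : ℂ) * I) * G w := by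
    have h2 : Measurable fun z : E n => (⟪(2 * Real.pi) • ξ, z⟫ : ℝ) :=
      (by fun_prop : Continuous _).measurable
    exact (Complex.measurable_exp.comp ((Complex.measurable_ofReal.comp h2).neg.mul_const I)).mul hG
  simp only [sg]
  rw [integral_map measurable_subtype_coe.aemeasurable m1.aestronglyMeasurable]
  apply integral_congr_ae
  filter_upwards [hg] with x hx
  rw [hx, real_inner_smul_left, real_inner_comm]

theorem scale {n : ℕ} (f : E n → ℝ≥0∞) (hf : Measurable f) :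
    ∫⁻ ξ : E n, f ((2 * Real.pi) • ξ) =
      ENNReal.ofReal ((2 * Real.pi) ^ n)⁻¹ * ∫⁻ z, f z := by
  have h2pi : (2 * Real.pi) ≠ 0 := by positivity
  have h3 := Measure.map_addHaar_smul (volume : Measure (E n)) h2pi
  have h4 : ∫⁻ x : E n, f x ∂(Measure.map ((2 * Real.pi) • · : E n → E n) volume) =
      ∫⁻ ξ : E n, f ((2 * Real.pi) • ξ) := lintegral_map hf (measurable_const_smul _)
  rw [← h4, h3, lintegral_smul_measure, smul_eq_mul, finrank_euclideanSpace_fin,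
    abs_of_nonneg (by positivity)]

theorem ft_int_le {n : ℕ} (q : ℝ) (g : sphere (0 : E n) 1 → ℂ) (G : E n → ℂ)
    (hG : Measurable G) (hg : ∀ᵐ x ∂(sigma n), g x = G x) :
    Measurable (ft g) ∧ ∫⁻ ξ, ‖ft g ξ‖ₑ ^ q ≤ ∫⁻ z, ‖T G z‖ₑ ^ q := by
  have hfun : ft g = fun ξ => T G ((2 * Real.pi) • ξ) := funext fun ξ => ft_eq g G hG hg ξ
  have hTm : Measurable (T G) := T_meas' G hG
  have hmeas : Measurable fun z => ‖T G z‖ₑ ^ q := hTm.enorm.pow_const q
  have hsm : Measurable fun x : E n => (2 * Real.pi) • x := measurable_const_smul _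
  refine ⟨by rw [hfun]; exact hTm.comp hsm, ?_⟩
  rw [hfun]
  rw [scale (fun z => ‖T G z‖ₑ ^ q) hmeas]
  have h5 : ENNReal.ofReal ((2 * Real.pi) ^ n)⁻¹ ≤ 1 := by
    rw [ENNReal.ofReal_le_one]
    apply inv_le_one_of_one_le₀
    apply one_le_pow₀
    linarith [Real.pi_gt_three]
  calc _ ≤ 1 * ∫⁻ z, ‖T G z‖ₑ ^ q := by gcongr
    _ = _ := one_mul _

theorem ft_mod {n : ℕ} (g : sphere (0 : E n) 1 → ℂ) (η ξ : E n) :
    ft (fun x => Complex.exp ((⟪η, (x : E n)⟫ : ℝ) * I) * g x) ξ =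
      ft g (ξ - (2 * Real.pi)⁻¹ • η) := by
  unfold ft
  refine integral_congr_ae (Filter.Eventually.of_forall fun x => ?_)
  simp only
  rw [← mul_assoc, ← Complex.exp_add, inner_sub_right, real_inner_smul_right,
    real_inner_comm (x : E n) η]
  have hpi := Real.pi_ne_zero
  congr 2
  push_cast
  field_simp
  ring

/-- Stein's estimate for the unit sphere of `ℝ^n` and the exponent `p` -/
def Stein (n : ℕ) (p : ℝ) : Prop := ∃ C : ℝ, ∀ g : sphere (0 : E n) 1 → ℂ, Measurable g →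
  (∀ x, ‖g x‖ ≤ 1) → eLpNorm (ft g) (ENNReal.ofReal p) ≤ ENNReal.ofReal C

/-- from the Fourier transform to the extension operator -/
theorem T_of_ft {n : ℕ} (P : ℝ) (hP : 0 < P) (G : E n → ℂ) (hG : Measurable G) (K : ℝ)
    (hK : 0 ≤ K) (h : eLpNorm (ft fun x : sphere (0 : E n) 1 => G x) (ENNReal.ofReal P) ≤
      ENNReal.ofReal K) :
    ∫⁻ z, ‖T G z‖ₑ ^ P ≤ ENNReal.ofReal ((2 * Real.pi) ^ n * K ^ P) := by
  have h2pi : 0 < (2 * Real.pi) ^ n := by positivity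
  have hfun : (ft fun x : sphere (0 : E n) 1 => G x) = fun ξ => T G ((2 * Real.pi) • ξ) :=
    funext fun ξ => ft_eq _ G hG (Filter.Eventually.of_forall fun x => rfl) ξ
  rw [eLpNorm_eq_lintegral_rpow_enorm_toReal (by simpa using hP) ENNReal.ofReal_ne_top,
    ENNReal.toReal_ofReal hP.le, hfun] at h
  have hmeas : Measurable fun z => ‖T G z‖ₑ ^ P := (T_meas' G hG).enorm.pow_const P
  rw [scale (fun z => ‖T G z‖ₑ ^ P) hmeas] at h
  have h2 : ENNReal.ofReal ((2 * Real.pi) ^ n)⁻¹ * ∫⁻ z, ‖T G z‖ₑ ^ P ≤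
      ENNReal.ofReal (K ^ P) := by
    have h3 := ENNReal.rpow_le_rpow h hP.le
    rw [← ENNReal.rpow_mul, one_div_mul_cancel hP.ne', ENNReal.rpow_one] at h3
    refine h3.trans ?_
    rw [← ENNReal.ofReal_rpow_of_nonneg hK hP.le]
  calc ∫⁻ z, ‖T G z‖ₑ ^ P = ENNReal.ofReal ((2 * Real.pi) ^ n) *
        (ENNReal.ofReal ((2 * Real.pi) ^ n)⁻¹ * ∫⁻ z, ‖T G z‖ₑ ^ P) := by
        rw [← mul_assoc, ← ENNReal.ofReal_mul h2pi.le, mul_inv_cancel₀ h2pi.ne',
          ENNReal.ofReal_one, one_mul]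
    _ ≤ ENNReal.ofReal ((2 * Real.pi) ^ n) * ENNReal.ofReal (K ^ P) := by gcongr
    _ = _ := by rw [← ENNReal.ofReal_mul h2pi.le]

theorem rt_of_stein (n : ℕ) (P : ℝ) (hP : 0 < P) (h : Stein n P) : RT n P := by
  obtain ⟨C, hC⟩ := h
  set C' : ℝ := |C| + 1 with hC'
  have hC'0 : 0 < C' := by positivity
  have h2pi : 0 < (2 * Real.pi) ^ n := by positivity
  refine ⟨(2 * Real.pi) ^ n * C' ^ P, by positivity, fun G hG hb => ?_⟩
  apply T_of_ft P hP G hG C' hC'0.le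
  refine (hC _ (hG.comp measurable_subtype_coe) (fun x => hb _)).trans ?_
  apply ENNReal.ofReal_le_ofReal
  rw [hC']
  linarith [le_abs_self C]

/-- one term of the superposition -/
theorem one_term {n : ℕ} (q : ℝ) (hq : 0 < q) (C : ℝ) (hC : 0 < C) (Cl : (E n → ℂ) → Prop)
    (hs : ∀ (a : ℂ) (G : E n → ℂ), Cl G → Cl (fun x => a * G x))
    (h : ∀ g : E n → ℂ, Measurable g → (∀ x, ‖g x‖ ≤ 1) → Cl g →
      ∫⁻ z, ‖T g z‖ₑ ^ q ≤ ENNReal.ofReal C)
    (η : E n) (F : E n → ℂ) (hFm : Measurable F) (hFc : Cl F) (M : ℝ) (hF : ∀ y, ‖F y‖ ≤ M) :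
    Measurable (ft fun x : sphere (0 : E n) 1 => Complex.exp ((⟪η, (x : E n)⟫ : ℝ) * I) *
      F (x : E n)) ∧
    (∫⁻ ξ, ‖ft (fun x : sphere (0 : E n) 1 =>
      Complex.exp ((⟪η, (x : E n)⟫ : ℝ) * I) * F (x : E n)) ξ‖ₑ ^ q) ^ (1 / q) ≤
      ENNReal.ofReal (C ^ (1 / q) * M) := by
  have hM0 : 0 ≤ M := (norm_nonneg _).trans (hF 0)
  -- normalised function
  set F' : E n → ℂ := fun y => ((M⁻¹ : ℝ) : ℂ) * F y with hF'
  have hF'm : Measurable F' := hFm.const_mul _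
  have hF'c : Cl F' := hs _ _ hFc
  have hF'1 : ∀ y, ‖F' y‖ ≤ 1 := by
    intro y
    rw [hF']
    simp only [norm_mul, Complex.norm_real, Real.norm_of_nonneg (inv_nonneg.2 hM0)]
    rcases hM0.eq_or_lt with h0 | h0
    · rw [← h0]; simp
    · rw [inv_mul_le_iff₀ h0, mul_one]
      exact hF _
  have hFF' : ∀ y, F y = (M : ℂ) * F' y := by
    intro y
    rw [hF']
    rcases hM0.eq_or_lt with h0 | h0
    · have h1 := hF y
      rw [← h0] at h1
      have h2 : F y = 0 := norm_le_zero_iff.1 h1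
      simp [h2]
    · simp only
      rw [← mul_assoc, ← Complex.ofReal_mul, mul_inv_cancel₀ h0.ne', Complex.ofReal_one, one_mul]
  set g0 : sphere (0 : E n) 1 → ℂ := fun x => F' (x : E n) with hg0
  obtain ⟨hm1, hint⟩ := ft_int_le q g0 F' hF'm (Filter.Eventually.of_forall fun x => rfl)
  have hfun : ft (fun x : sphere (0 : E n) 1 =>
      Complex.exp ((⟪η, (x : E n)⟫ : ℝ) * I) * F (x : E n)) =
      fun ξ => (M : ℂ) * ft g0 (ξ - (2 * Real.pi)⁻¹ • η) := by
    funext ξ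
    rw [← ft_mod]
    unfold ft
    rw [← integral_const_mul]
    refine integral_congr_ae (Filter.Eventually.of_forall fun x => ?_)
    simp only [hg0]
    rw [hFF']
    ring
  have hsub : Measurable fun ξ : E n => ξ - (2 * Real.pi)⁻¹ • η := measurable_id.sub_const _
  rw [hfun]
  refine ⟨(hm1.comp hsub).const_mul _, ?_⟩
  have h1 : ∫⁻ ξ, ‖(M : ℂ) * ft g0 (ξ - (2 * Real.pi)⁻¹ • η)‖ₑ ^ q ≤
      ENNReal.ofReal (M ^ q * C) := by
    calc ∫⁻ ξ, ‖(M : ℂ) * ft g0 (ξ - (2 * Real.pi)⁻¹ • η)‖ₑ ^ q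
        = ∫⁻ ξ, ENNReal.ofReal (M ^ q) * ‖ft g0 (ξ - (2 * Real.pi)⁻¹ • η)‖ₑ ^ q := by
          refine lintegral_congr fun ξ => ?_
          rw [enorm_mul, ENNReal.mul_rpow_of_nonneg _ _ hq.le, ← ofReal_norm (M : ℂ),
            Complex.norm_real, Real.norm_of_nonneg hM0, ENNReal.ofReal_rpow_of_nonneg hM0 hq.le]
      _ = ENNReal.ofReal (M ^ q) * ∫⁻ ξ, ‖ft g0 ξ‖ₑ ^ q := by
          rw [lintegral_const_mul' _ _ ENNReal.ofReal_ne_top]
          congr 1
          exact lintegral_sub_right_eq_self (fun ξ => ‖ft g0 ξ‖ₑ ^ q) ((2 * Real.pi)⁻¹ • η)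
      _ ≤ ENNReal.ofReal (M ^ q) * ENNReal.ofReal C := by
          gcongr
          exact hint.trans (h F' hF'm hF'1 hF'c)
      _ = _ := by rw [← ENNReal.ofReal_mul (by positivity)]
  refine (ENNReal.rpow_le_rpow h1 (by positivity)).trans (le_of_eq ?_)
  rw [ENNReal.ofReal_rpow_of_nonneg (by positivity) (by positivity),
    Real.mul_rpow (by positivity) hC.le, ← Real.rpow_mul hM0, mul_one_div_cancel hq.ne',
    Real.rpow_one, mul_comm]

/-- the superposition -/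
theorem super {n : ℕ} (q : ℝ) (hq : 1 ≤ q) (Cl : (E n → ℂ) → Prop)
    (hs : ∀ (a : ℂ) (G : E n → ℂ), Cl G → Cl (fun x => a * G x)) (hR : RTC n q Cl) :
    ∃ C : ℝ, 0 < C ∧ ∀ (M : ℕ → ℝ), Summable M → ∀ (η : ℕ → E n) (F : ℕ → E n → ℂ),
      (∀ j, Measurable (F j)) → (∀ j, Cl (F j)) → (∀ j x, ‖F j x‖ ≤ M j) →
      ∀ g : sphere (0 : E n) 1 → ℂ, (∀ᵐ x ∂(sigma n),
        g x = ∑' j, Complex.exp ((⟪η j, (x : E n)⟫ : ℝ) * I) * F j (x : E n)) →
      MemLp (ft g) (ENNReal.ofReal q) ∧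
      eLpNorm (ft g) (ENNReal.ofReal q) ≤ ENNReal.ofReal (C * ∑' j, M j) := by
  have hq0 : 0 < q := by linarith
  obtain ⟨C, hC, h⟩ := hR
  refine ⟨C ^ (1 / q), by positivity, ?_⟩
  rintro M hM η F hFm hFc hF g hg
  have hM0 : ∀ j, 0 ≤ M j := fun j => (norm_nonneg _).trans (hF j 0)
  set gj : ℕ → sphere (0 : E n) 1 → ℂ := fun j x =>
    Complex.exp ((⟪η j, (x : E n)⟫ : ℝ) * I) * F j (x : E n) with hgj
  have hone := fun j => one_term q hq0 C hC Cl hs h (η j) (F j) (hFm j) (hFc j) (M j) (hF j)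
  have hfin : IsFiniteMeasure (sigma n) := by unfold sigma; infer_instance
  have hgjm : ∀ j, Measurable (gj j) := by
    intro j
    have h1 : Measurable fun x : E n => Complex.exp ((⟪η j, x⟫ : ℝ) * I) * F j x := by
      refine Measurable.mul ?_ (hFm j)
      have h2 : Measurable fun x : E n => (⟪η j, x⟫ : ℝ) := by fun_prop
      exact Complex.measurable_exp.comp ((Complex.measurable_ofReal.comp h2).mul_const I)
    exact h1.comp measurable_subtype_coe
  have hgjb : ∀ j x, ‖gj j x‖ ≤ M j := by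
    intro j x
    rw [hgj]
    simp only [norm_mul, Complex.norm_exp_ofReal_mul_I, one_mul]
    exact hF j _
  have hsum : ∀ ξ, ft g ξ = ∑' j, ft (gj j) ξ := by
    intro ξ
    unfold ft
    have hen : ∀ (j : ℕ) (x : sphere (0 : E n) 1),
        ‖Complex.exp (-(2 * Real.pi * ⟪(x : E n), ξ⟫ : ℝ) * I) * gj j x‖ₑ ≤
          ENNReal.ofReal (M j) := by
      intro j x
      rw [← ofReal_norm]
      apply ENNReal.ofReal_le_ofReal
      have h3 : -(((2 * Real.pi * ⟪(x : E n), ξ⟫ : ℝ)) : ℂ) * I =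
          ((-(2 * Real.pi * ⟪(x : E n), ξ⟫) : ℝ) : ℂ) * I := by push_cast; ring
      rw [norm_mul, h3, Complex.norm_exp_ofReal_mul_I, one_mul]
      exact hgjb j x
    have hexm : Measurable fun x : sphere (0 : E n) 1 =>
        Complex.exp (-(2 * Real.pi * ⟪(x : E n), ξ⟫ : ℝ) * I) := by
      have h4 : Continuous fun x : sphere (0 : E n) 1 =>
        Complex.exp (-(2 * Real.pi * ⟪(x : E n), ξ⟫ : ℝ) * I) := by fun_prop
      exact h4.measurable
    rw [← integral_tsum]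
    · refine integral_congr_ae ?_
      filter_upwards [hg] with x hx
      rw [hx, ← tsum_mul_left]
    · exact fun j => (hexm.mul (hgjm j)).aestronglyMeasurable
    · have h5 : ∑' j, ∫⁻ x, ‖Complex.exp (-(2 * Real.pi * ⟪(x : E n), ξ⟫ : ℝ) * I) *
          gj j x‖ₑ ∂(sigma n) ≤ ∑' j, ENNReal.ofReal (M j) * sigma n univ := by
        apply ENNReal.tsum_le_tsum
        intro j
        calc _ ≤ ∫⁻ _x, ENNReal.ofReal (M j) ∂(sigma n) := lintegral_mono (hen j)
          _ = _ := by rw [lintegral_const]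
      refine (h5.trans_lt ?_).ne
      rw [ENNReal.tsum_mul_right, ← ENNReal.ofReal_tsum_of_nonneg hM0 hM]
      exact ENNReal.mul_lt_top ENNReal.ofReal_lt_top (measure_lt_top _ _)
  have hfun : ft g = fun ξ => ∑' j, ft (gj j) ξ := funext hsum
  have hmeas : Measurable (ft g) := by
    rw [hfun]
    exact Measurable.tsum fun j => (hone j).1
  have hle : ∫⁻ ξ, ‖ft g ξ‖ₑ ^ q ≤ (ENNReal.ofReal (C ^ (1 / q) * ∑' j, M j)) ^ q := by
    calc ∫⁻ ξ, ‖ft g ξ‖ₑ ^ q ≤ ∫⁻ ξ, (∑' j, ‖ft (gj j) ξ‖ₑ) ^ q := by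
          apply lintegral_mono
          intro ξ
          simp only
          rw [hsum]
          exact ENNReal.rpow_le_rpow enorm_tsum_le_tsum_enorm hq0.le
      _ ≤ (∑' j, (∫⁻ ξ, ‖ft (gj j) ξ‖ₑ ^ q) ^ (1 / q)) ^ q :=
          mink volume q hq (fun j ξ => ‖ft (gj j) ξ‖ₑ) fun j => (hone j).1.enorm
      _ ≤ (∑' j, ENNReal.ofReal (C ^ (1 / q) * M j)) ^ q :=
          ENNReal.rpow_le_rpow (ENNReal.tsum_le_tsum fun j => (hone j).2) hq0.le
      _ = _ := by
          rw [← ENNReal.ofReal_tsum_of_nonneg (fun j => mul_nonneg (by positivity) (hM0 j))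
            (hM.mul_left _), tsum_mul_left]
  have hnorm : eLpNorm (ft g) (ENNReal.ofReal q) ≤
      ENNReal.ofReal (C ^ (1 / q) * ∑' j, M j) := by
    rw [eLpNorm_eq_lintegral_rpow_enorm_toReal (by simpa using hq0) ENNReal.ofReal_ne_top,
      ENNReal.toReal_ofReal hq0.le]
    refine (ENNReal.rpow_le_rpow hle (by positivity)).trans (le_of_eq ?_)
    rw [← ENNReal.rpow_mul, mul_one_div_cancel hq0.ne', ENNReal.rpow_one]
  exact ⟨⟨hmeas.aestronglyMeasurable, hnorm.trans_lt ENNReal.ofReal_lt_top⟩, hnorm⟩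

end Pool.Agent.Y61.MB
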