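import Mathlib
import Pool.Agent.Y61.MB.M3
import Pool.Agent.Y61.MB.M4
set_option autoImplicit false

/-! Orthogonal decompositions into subspaces. -/

namespace Pool.Agent.Y61.MB

open MeasureTheory Set Complex Metric
open scoped ENNReal RealInnerProductSpace
open Pool.Agent.H789R2.FR (E sg T sg_finite sg_ae)
open Pool.Agent.H438R2.PD (T_meas' T_comp)
open Pool.Agent.TH335.RF hiding P1_J P2_J

/-- orthogonal decomposition into nonzero subspaces -/
def Orth {n r : ℕ} (V : Fin r → Submodule ℝ (E n)) : Prop :=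
  (∀ i, V i ≠ ⊥) ∧ (∀ i j, i ≠ j → V i ⟂ V j) ∧ ⨆ i, V i = ⊤

/-- the function depends only on the lengths of the projections -/
def Radial {n r : ℕ} (V : Fin r → Submodule ℝ (E n)) (F : E n → ℂ) : Prop :=
  ∀ x y : E n, (∀ i, ‖(V i).starProjection x‖ = ‖(V i).starProjection y‖) →
    (∀ i, Module.finrank ℝ (V i) = 1 → (V i).starProjection x = (V i).starProjection y) →
    F x = F y

theorem adapted {n r : ℕ} (V : Fin r → Submodule ℝ (E n)) (hV : Orth V) :
    ∃ (e : OrthonormalBasis (Fin n) ℝ (E n)) (b : Fin n → Fin r), Function.Surjective b ∧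
      (∀ i, e i ∈ V (b i)) ∧ ∀ β, Finset.card {i | b i = β} = Module.finrank ℝ (V β) := by
  obtain ⟨h0, h1, h2⟩ := hV
  have hO : OrthogonalFamily ℝ (fun i => V i) fun i => (V i).subtypeₗᵢ := by
    rw [orthogonalFamily_iff_pairwise]
    exact fun i j hij => h1 i j hij
  have hI : DirectSum.IsInternal V := by
    rw [hO.isInternal_iff, h2]
    simp
  have hn : Module.finrank ℝ (E n) = n := finrank_euclideanSpace_fin
  refine ⟨hI.subordinateOrthonormalBasis hn hO,
    fun i => hI.subordinateOrthonormalBasisIndex hn i hO, ?_, ?_, ?_⟩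
  · intro β
    exact hI.exists_subordinateOrthonormalBasisIndex_eq hn hO (h0 β)
  · intro i
    exact hI.subordinateOrthonormalBasis_subordinate hn i hO
  · intro β
    exact hI.card_filter_subordinateOrthonormalBasisIndex_eq hn hO β

theorem proj_coords {n r : ℕ} (V : Fin r → Submodule ℝ (E n)) (hV : Orth V)
    (e : OrthonormalBasis (Fin n) ℝ (E n)) (b : Fin n → Fin r) (he : ∀ i, e i ∈ V (b i))
    (β : Fin r) (x : E n) :
    (V β).starProjection (e.repr.symm x) = ∑ i with b i = β, x i • e i := by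
  have h1 : e.repr.symm x = ∑ i, x i • e i := by
    rw [← e.sum_repr (e.repr.symm x)]
    simp
  have h2 : ∀ i, (V β).starProjection (e i) = if b i = β then e i else 0 := by
    intro i
    split_ifs with h
    · apply Submodule.starProjection_eq_self_iff.2
      rw [← h]
      exact he i
    · apply (Submodule.starProjection_apply_eq_zero_iff _).2
      rw [Submodule.mem_orthogonal]
      intro u hu
      have := hV.2.1 β (b i) (Ne.symm h)
      exact Submodule.IsOrtho.inner_eq this hu (he i)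
  rw [h1, map_sum, Finset.sum_filter]
  refine Finset.sum_congr rfl fun i _ => ?_
  rw [map_smul, h2]
  split_ifs <;> simp

theorem norm_proj {n r : ℕ} (V : Fin r → Submodule ℝ (E n)) (hV : Orth V)
    (e : OrthonormalBasis (Fin n) ℝ (E n)) (b : Fin n → Fin r) (he : ∀ i, e i ∈ V (b i))
    (β : Fin r) (x : E n) :
    ‖(V β).starProjection (e.repr.symm x)‖ ^ 2 = ∑ i with b i = β, x i ^ 2 := by
  rw [proj_coords V hV e b he]
  set w : E n := WithLp.toLp 2 (fun i => if b i = β then x i else 0) with hw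
  have h1 : ∑ i with b i = β, x i • e i = e.repr.symm w := by
    rw [← e.sum_repr (e.repr.symm w), Finset.sum_filter]
    refine Finset.sum_congr rfl fun i _ => ?_
    rw [LinearIsometryEquiv.apply_symm_apply, hw]
    simp only
    split_ifs <;> simp
  rw [h1, LinearIsometryEquiv.norm_map, EuclideanSpace.real_norm_sq_eq, Finset.sum_filter]
  refine Finset.sum_congr rfl fun i _ => ?_
  rw [hw]
  simp only
  split_ifs <;> simp

theorem inv_of_radial {n r : ℕ} (V : Fin r → Submodule ℝ (E n)) (hV : Orth V)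
    (e : OrthonormalBasis (Fin n) ℝ (E n)) (b : Fin n → Fin r) (he : ∀ i, e i ∈ V (b i))
    (hc : ∀ β, Finset.card {i | b i = β} = Module.finrank ℝ (V β)) (F : E n → ℂ)
    (hF : Radial V F) : Inv b (fun x => F (e.repr.symm x)) := by
  intro x y hxy hs
  apply hF
  · intro β
    have h1 := norm_proj V hV e b he β x
    rw [hxy β, ← norm_proj V hV e b he β y] at h1
    exact (sq_eq_sq₀ (norm_nonneg _) (norm_nonneg _)).1 h1
  · intro β hβ
    rw [proj_coords V hV e b he, proj_coords V hV e b he]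
    refine Finset.sum_congr rfl fun i hi => ?_
    have hi' : b i = β := by simpa using hi
    rw [hs i]
    intro j hj
    have h1 := hc β
    rw [hβ, Finset.card_eq_one] at h1
    obtain ⟨a, ha⟩ := h1
    have hia : i ∈ ({a} : Finset (Fin n)) := by rw [← ha]; simpa using hi'
    have hja : j ∈ ({a} : Finset (Fin n)) := by rw [← ha]; simpa using hj.trans hi'
    rw [Finset.mem_singleton] at hia hja
    rw [hia, hja]

/-- the class of all densities depending on `r` lengths -/
def RCl (n r : ℕ) (F : E n → ℂ) : Prop := ∃ V : Fin r → Submodule ℝ (E n), Orth V ∧ Radial V F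

theorem rcl_smul {n r : ℕ} (a : ℂ) (F : E n → ℂ) (hF : RCl n r F) : RCl n r (fun x => a * F x) := by
  obtain ⟨V, hV, h⟩ := hF
  refine ⟨V, hV, fun x y h1 h2 => ?_⟩
  simp only
  rw [h x y h1 h2]

theorem rtc_radial {n r : ℕ} (q : ℝ) (h : ∀ b : Fin n → Fin r, Function.Surjective b →
    RTC n q (Inv b)) : RTC n q (RCl n r) := by
  classical
  have h' : ∀ b : Fin n → Fin r, ∃ C : ℝ, 0 < C ∧ (Function.Surjective b →
      ∀ g : E n → ℂ, Measurable g → (∀ x, ‖g x‖ ≤ 1) → Inv b g →
      ∫⁻ z, ‖T g z‖ₑ ^ q ≤ ENNReal.ofReal C) := by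
    intro b
    by_cases hb : Function.Surjective b
    · obtain ⟨C, hC, hT⟩ := h b hb
      exact ⟨C, hC, fun _ => hT⟩
    · exact ⟨1, one_pos, fun hb' => absurd hb' hb⟩
  choose C hC hT using h'
  refine ⟨1 + ∑ b, C b, by
    have : 0 ≤ ∑ b, C b := Finset.sum_nonneg fun b _ => (hC b).le
    linarith, fun g hg hgb hI => ?_⟩
  obtain ⟨V, hV, hR⟩ := hI
  obtain ⟨e, b, hb, he, hc⟩ := adapted V hV
  have h1 := hT b hb (fun x => g (e.repr.symm x)) (hg.comp e.repr.symm.continuous.measurable)
    (fun x => hgb _) (inv_of_radial V hV e b he hc g hR)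
  have h2 : ∫⁻ z, ‖T (fun x => g (e.repr.symm x)) z‖ₑ ^ q = ∫⁻ z, ‖T g z‖ₑ ^ q := by
    simp_rw [T_comp]
    exact e.repr.symm.measurePreserving.lintegral_comp ((T_meas' g hg).enorm.pow_const q)
  rw [h2] at h1
  refine h1.trans (ENNReal.ofReal_le_ofReal ?_)
  have h3 : C b ≤ ∑ b, C b := Finset.single_le_sum (fun b _ => (hC b).le) (Finset.mem_univ b)
  linarith

/-- all cases -/
theorem all_cases (n r : ℕ) (hr : 2 ≤ r) (hn : r < n) (q : ℝ)
    (h : (r = 2 ∧ 2 * (n : ℝ) / (n - 1) < q) ∨
      2 + 4 / (2 * (n : ℝ) - r - 1) < q ∨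
      (∃ P : ℝ, 2 < P ∧ Stein r P ∧ 1 < (q - 2) * (((n : ℝ) - r) / 2 + 1 / (P - 2))) ∨
      ((∀ P : ℝ, 2 * (r : ℝ) / (r - 1) < P → Stein r P) ∧ 2 * (n : ℝ) / (n - 1) < q)) :
    RTC n q (RCl n r) := by
  have hr' : (2 : ℝ) ≤ r := by exact_mod_cast hr
  have hn' : (r : ℝ) + 1 ≤ n := by exact_mod_cast hn
  apply rtc_radial
  intro b hb
  -- the conjectured range
  have hfull : 2 * (n : ℝ) / (n - 1) < q → 1 < (q - 2) * (((n : ℝ) - 1) / 2) := by
    intro hq
    rw [div_lt_iff₀ (by linarith)] at hq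
    nlinarith
  rcases h with ⟨h1, hq⟩ | hq | ⟨P, hP, hS, h⟩ | ⟨hS, hq⟩
  · subst h1
    exact two n (by omega) b hb q (hfull hq)
  · refine multi r hr (((r : ℝ) - 1) / 4) (by linarith) ?_ n b hb q ?_
    · intro P hP hPr
      apply stein_tomas r hr P
      rw [div_lt_iff₀ (by linarith)]
      nlinarith
    · have h2 : 0 < 2 * (n : ℝ) - r - 1 := by linarith
      have h3 : 4 / (2 * (n : ℝ) - r - 1) < q - 2 := by linarith
      rw [div_lt_iff₀ h2] at h3
      nlinarith
  · have hP2 : 0 < P - 2 := by linarith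
    refine multi r hr (1 / (P - 2)) (by positivity) ?_ n b hb q h
    intro P' hP' h1
    have h2 : P - 2 < P' - 2 := by
      rw [mul_one_div, lt_div_iff₀ hP2, one_mul] at h1
      exact h1
    -- monotonicity in the exponent
    obtain ⟨C, hC, hT⟩ := rt_of_stein r P (by linarith) hS
    set S : ℝ := (sg r).real univ with hS
    have hS0 : 0 < S := Pool.Agent.H438R2.BR.T7.sg_pos (by omega)
    refine ⟨S ^ (P' - P) * C, by positivity, fun g hg hgb => ?_⟩
    have hbd : ∀ z, ‖T g z‖ₑ ≤ ENNReal.ofReal S := by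
      intro z
      rw [← ofReal_norm]
      apply ENNReal.ofReal_le_ofReal
      have h1 := Pool.Agent.H438R2.PD.T_le g 1 hgb z
      rwa [one_mul] at h1
    calc ∫⁻ z, ‖T g z‖ₑ ^ P' ≤ ∫⁻ z, ENNReal.ofReal S ^ (P' - P) * ‖T g z‖ₑ ^ P := by
          apply lintegral_mono
          intro z
          have h1 : ‖T g z‖ₑ ^ P' = ‖T g z‖ₑ ^ (P' - P) * ‖T g z‖ₑ ^ P := by
            rw [← ENNReal.rpow_add_of_nonneg _ _ (by linarith) (by linarith)]
            congr 1
            ring
          simp only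
          rw [h1]
          exact mul_le_mul_left (ENNReal.rpow_le_rpow (hbd z) (by linarith)) _
      _ = ENNReal.ofReal S ^ (P' - P) * ∫⁻ z, ‖T g z‖ₑ ^ P := by
          rw [lintegral_const_mul']
          exact ENNReal.rpow_ne_top_of_nonneg (by linarith) ENNReal.ofReal_ne_top
      _ ≤ ENNReal.ofReal S ^ (P' - P) * ENNReal.ofReal C := by
          gcongr
          exact hT g hg hgb
      _ = _ := by
          rw [ENNReal.ofReal_rpow_of_nonneg hS0.le (by linarith),
            ← ENNReal.ofReal_mul (by positivity)]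
  · refine multi r hr (((r : ℝ) - 1) / 2) (by linarith) ?_ n b hb q ?_
    · intro P hP hPr
      apply rt_of_stein r P (by linarith)
      apply hS
      rw [div_lt_iff₀ (by linarith)]
      nlinarith
    · refine lt_of_lt_of_le (hfull hq) (le_of_eq ?_)
      congr 1
      ring

end Pool.Agent.Y61.MB
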