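import Mathlib
import Pool.Agent.Y61.MB.M4
set_option autoImplicit false

/-! Multiplication of a density by a power of one coordinate. -/

namespace Pool.Agent.Y61.MB

open MeasureTheory Set Metric Complex Filter
open Pool.Agent.TH335.RF hiding P1_J P2_J
open Pool.Agent.H438R2.PD (T_meas' T_comp)
open Pool.Agent.H789R2.FR (E sg T sg_finite sg_ae)
open scoped ENNReal RealInnerProductSpace FourierTransform ContDiff

/-- the smooth step -/
noncomputable def rh (u : ℝ) : ℝ := Real.smoothTransition (2 * u - 1)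

theorem rh_zero {u : ℝ} (hu : u ≤ 1 / 2) : rh u = 0 :=
  Real.smoothTransition.zero_of_nonpos (by linarith)

theorem rh_one {u : ℝ} (hu : 1 ≤ u) : rh u = 1 :=
  Real.smoothTransition.one_of_one_le (by linarith)

theorem rh_smooth : ContDiff ℝ ∞ rh := by
  unfold rh
  exact Real.smoothTransition.contDiff.comp (by fun_prop)

/-- the dyadic piece -/
noncomputable def ch (α u : ℝ) : ℝ := u ^ α * (rh u - rh (u / 2))

theorem ch_zero {α u : ℝ} (hu : u ≤ 1 / 2) : ch α u = 0 := by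
  unfold ch
  rw [rh_zero hu, rh_zero (by linarith : u / 2 ≤ 1 / 2), sub_self, mul_zero]

theorem ch_zero' {α u : ℝ} (hu : 2 ≤ u) : ch α u = 0 := by
  unfold ch
  rw [rh_one (by linarith), rh_one (by linarith), sub_self, mul_zero]

theorem ch_smooth (α : ℝ) : ContDiff ℝ ∞ (ch α) := by
  rw [contDiff_iff_contDiffAt]
  intro u
  rcases lt_or_ge u (1 / 2) with hu | hu
  · have h1 : ch α =ᶠ[nhds u] fun _ => 0 := by
      filter_upwards [Iio_mem_nhds hu] with v hv
      exact ch_zero (le_of_lt hv)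
    exact contDiffAt_const.congr_of_eventuallyEq h1
  · unfold ch
    refine ContDiffAt.mul ?_ ?_
    · exact contDiffAt_id.rpow_const_of_ne (by simp; linarith)
    · exact (rh_smooth.contDiffAt).sub
        ((rh_smooth.comp (contDiff_id.div_const 2)).contDiffAt)

theorem ch_supp (α : ℝ) : HasCompactSupport (ch α) := by
  apply HasCompactSupport.of_support_subset_isCompact (isCompact_Icc (a := (1 / 2 : ℝ)) (b := 2))
  intro u hu
  rw [Function.mem_support] at hu
  refine ⟨?_, ?_⟩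
  · by_contra h
    exact hu (ch_zero (le_of_lt (not_le.1 h)))
  · by_contra h
    exact hu (ch_zero' (le_of_lt (not_le.1 h)))

/-- the piece is a superposition of exponentials -/
theorem ch_fourier (α : ℝ) : ∃ W : ℝ → ℂ, Continuous W ∧ Integrable W ∧
    ∀ u : ℝ, ((ch α u : ℝ) : ℂ) = ∫ τ, W τ * Complex.exp ((τ * u : ℝ) * I) := by
  set f : ℝ → ℂ := fun u => ((ch α u : ℝ) : ℂ) with hf
  have hfs : ContDiff ℝ ∞ f := Complex.ofRealCLM.contDiff.comp (ch_smooth α)
  have hfc : HasCompactSupport f := (ch_supp α).comp_left (g := fun x : ℝ => (x : ℂ)) (by simp)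
  set S := hfc.toSchwartzMap hfs with hS
  have hSf : ∀ u, S u = f u := fun u => rfl
  have hSf' : (S : ℝ → ℂ) = f := rfl
  have hF : Integrable (𝓕 f) := by
    have h1 : Integrable (𝓕 S : SchwartzMap ℝ ℂ) := SchwartzMap.integrable _
    rwa [SchwartzMap.fourier_coe] at h1
  have hFc : Continuous (𝓕 f) := by
    have h1 : Continuous (𝓕 S : SchwartzMap ℝ ℂ) := SchwartzMap.continuous _
    rwa [SchwartzMap.fourier_coe] at h1
  have hinv := hfs.continuous.fourierInv_fourier_eq (by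
    have h1 : Integrable S := SchwartzMap.integrable _
    exact h1) hF
  have h2pi : (2 * Real.pi) ≠ 0 := by positivity
  refine ⟨fun τ => ((|(2 * Real.pi)⁻¹| : ℝ) : ℂ) * 𝓕 f ((2 * Real.pi)⁻¹ * τ), ?_, ?_, ?_⟩
  · fun_prop
  · exact (hF.comp_mul_left' (inv_ne_zero h2pi)).const_mul _
  · intro u
    have h1 : f u = ∫ v : ℝ, Complex.exp ((2 * Real.pi * (v * u) : ℝ) * I) * 𝓕 f v := by
      conv_lhs => rw [← hinv]
      rw [Real.fourierInv_eq']
      refine integral_congr_ae (Filter.Eventually.of_forall fun v => ?_)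
      simp only [smul_eq_mul]
      congr 2
      simp
      ring
    change f u = _
    rw [h1]
    have h2 := Measure.integral_comp_mul_left (fun v : ℝ =>
      Complex.exp ((2 * Real.pi * (v * u) : ℝ) * I) * 𝓕 f v) (2 * Real.pi)⁻¹
    rw [inv_inv] at h2
    have h3 : ∫ v : ℝ, Complex.exp ((2 * Real.pi * (v * u) : ℝ) * I) * 𝓕 f v =
        |(2 * Real.pi)⁻¹| • ∫ x : ℝ, Complex.exp ((2 * Real.pi * ((2 * Real.pi)⁻¹ * x * u) : ℝ) * I) *
          𝓕 f ((2 * Real.pi)⁻¹ * x) := by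
      rw [h2, ← mul_smul, ← abs_mul, inv_mul_cancel₀ h2pi, abs_one, one_smul]
    rw [h3, ← integral_smul]
    refine integral_congr_ae (Filter.Eventually.of_forall fun x => ?_)
    simp only [Complex.real_smul]
    have e1 : 2 * Real.pi * ((2 * Real.pi)⁻¹ * x * u) = x * u := by
      field_simp
    rw [e1]
    ring

/-- the sum of the dyadic pieces -/
theorem ch_sum (α : ℝ) {u : ℝ} (hu : u ≤ 1) :
    HasSum (fun j : ℕ => (2 : ℝ) ^ (-(α * j)) * ch α (2 ^ j * u)) (if 0 < u then u ^ α else 0) := by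
  by_cases h0 : 0 < u
  · rw [if_pos h0]
    obtain ⟨J, hJ⟩ : ∃ J : ℕ, 2 < (2 : ℝ) ^ J * u := by
      obtain ⟨J, hJ⟩ := pow_unbounded_of_one_lt (2 / u) (by norm_num : (1 : ℝ) < 2)
      exact ⟨J, by rwa [div_lt_iff₀ h0] at hJ⟩
    have hterm : ∀ j : ℕ, (2 : ℝ) ^ (-(α * j)) * ch α (2 ^ j * u) =
        u ^ α * (rh (2 ^ j * u) - rh (2 ^ j * u / 2)) := by
      intro j
      unfold ch
      rw [Real.mul_rpow (by positivity) h0.le, ← Real.rpow_natCast 2 j, ← Real.rpow_mul (by norm_num),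
        ← mul_assoc, ← mul_assoc, ← Real.rpow_add (by norm_num)]
      rw [show -(α * j) + j * α = 0 by ring, Real.rpow_zero, one_mul]
    have hpart : ∀ N : ℕ, ∑ j ∈ Finset.range N, (2 : ℝ) ^ (-(α * j)) * ch α (2 ^ j * u) =
        u ^ α * (rh (2 ^ N * u / 2)) := by
      intro N
      induction N with
      | zero =>
        rw [Finset.sum_range_zero, pow_zero, one_mul, rh_zero (by linarith), mul_zero]
      | succ N ih =>
        rw [Finset.sum_range_succ, ih, hterm]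
        have : (2 : ℝ) ^ (N + 1) * u / 2 = 2 ^ N * u := by ring
        rw [this]
        ring
    have h1 : ∀ j ∉ Finset.range (J + 1), (2 : ℝ) ^ (-(α * j)) * ch α (2 ^ j * u) = 0 := by
      intro j hj
      rw [Finset.mem_range, not_lt] at hj
      rw [ch_zero', mul_zero]
      have : (2 : ℝ) ^ J ≤ 2 ^ j := pow_le_pow_right₀ (by norm_num) (by omega)
      nlinarith
    have h2 : HasSum (fun j : ℕ => (2 : ℝ) ^ (-(α * j)) * ch α (2 ^ j * u))
        (∑ j ∈ Finset.range (J + 1), (2 : ℝ) ^ (-(α * j)) * ch α (2 ^ j * u)) :=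
      hasSum_sum_of_ne_finset_zero h1
    rw [hpart, rh_one, mul_one] at h2
    · exact h2
    · have : (2 : ℝ) ^ (J + 1) * u / 2 = 2 ^ J * u := by ring
      rw [this]
      linarith
  · rw [if_neg h0]
    have : (fun j : ℕ => (2 : ℝ) ^ (-(α * j)) * ch α (2 ^ j * u)) = fun _ => 0 := by
      funext j
      rw [ch_zero, mul_zero]
      have : (0 : ℝ) < 2 ^ j := by positivity
      nlinarith
    rw [this]
    exact hasSum_zero

theorem T_integrable {n : ℕ} (g : E n → ℂ) (hg : Measurable g) (M : ℝ) (hM : ∀ x, ‖g x‖ ≤ M)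
    (ξ : E n) : Integrable (fun z => Complex.exp (-((⟪ξ, z⟫ : ℝ) : ℂ) * I) * g z) (sg n) := by
  have hfin : IsFiniteMeasure (sg n) := sg_finite n
  have hm : Measurable fun z : E n => Complex.exp (-((⟪ξ, z⟫ : ℝ) : ℂ) * I) * g z := by
    have h2 : Measurable fun z : E n => (⟪ξ, z⟫ : ℝ) := (by fun_prop : Continuous _).measurable
    exact (Complex.measurable_exp.comp ((Complex.measurable_ofReal.comp h2).neg.mul_const I)).mul hg
  refine Integrable.of_bound hm.aestronglyMeasurable M (Filter.Eventually.of_forall fun z => ?_)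
  rw [norm_mul, show -((⟪ξ, z⟫ : ℝ) : ℂ) * I = ((-⟪ξ, z⟫ : ℝ) : ℂ) * I by push_cast; ring,
    Complex.norm_exp_ofReal_mul_I, one_mul]
  exact hM z

/-- a multiplier in one variable -/
theorem T_mult {n : ℕ} (φ : ℝ → ℂ) (W : ℝ → ℂ) (hWc : Continuous W) (hW : Integrable W)
    (hφ : ∀ u, φ u = ∫ τ, W τ * Complex.exp ((τ * u : ℝ) * I)) (v : E n) (g : E n → ℂ)
    (hg : Measurable g) (M : ℝ) (hM : ∀ x, ‖g x‖ ≤ M) (ξ : E n) :
    T (fun z => φ ⟪v, z⟫ * g z) ξ = ∫ τ, W τ * T g (ξ - τ • v) := by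
  have hfin : IsFiniteMeasure (sg n) := sg_finite n
  unfold T
  have h1 : ∀ z : E n, Complex.exp (-((⟪ξ, z⟫ : ℝ) : ℂ) * I) * (φ ⟪v, z⟫ * g z) =
      ∫ τ, W τ * (Complex.exp (-((⟪ξ - τ • v, z⟫ : ℝ) : ℂ) * I) * g z) := by
    intro z
    rw [hφ, ← mul_assoc, mul_comm, ← integral_const_mul, ← integral_const_mul]
    refine integral_congr_ae (Filter.Eventually.of_forall fun τ => ?_)
    simp only
    have e1 : Complex.exp (-((⟪ξ - τ • v, z⟫ : ℝ) : ℂ) * I) =
        Complex.exp (-((⟪ξ, z⟫ : ℝ) : ℂ) * I) * Complex.exp ((τ * ⟪v, z⟫ : ℝ) * I) := by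
      rw [← Complex.exp_add, inner_sub_left, real_inner_smul_left]
      congr 1
      push_cast
      ring
    rw [e1]
    ring
  simp only [h1]
  have hmeas : Measurable fun p : E n × ℝ =>
      W p.2 * (Complex.exp (-((⟪ξ - p.2 • v, p.1⟫ : ℝ) : ℂ) * I) * g p.1) := by
    have h2 : Measurable fun p : E n × ℝ => (⟪ξ - p.2 • v, p.1⟫ : ℝ) :=
      (by fun_prop : Continuous fun p : E n × ℝ => (⟪ξ - p.2 • v, p.1⟫ : ℝ)).measurable
    have h3 : Measurable fun p : E n × ℝ => W p.2 := hWc.measurable.comp measurable_snd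
    have h4 : Measurable fun p : E n × ℝ => g p.1 := hg.comp measurable_fst
    exact h3.mul ((Complex.measurable_exp.comp
      ((Complex.measurable_ofReal.comp h2).neg.mul_const I)).mul h4)
  rw [integral_integral_swap]
  · refine integral_congr_ae (Filter.Eventually.of_forall fun τ => ?_)
    simp only
    rw [integral_const_mul]
  · have h5 : Integrable (fun p : E n × ℝ => (M : ℝ) * ‖W p.2‖) ((sg n).prod volume) :=
      (integrable_const (μ := sg n) M).mul_prod (hW.norm)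
    refine h5.mono' hmeas.aestronglyMeasurable (Filter.Eventually.of_forall fun p => ?_)
    simp only [Function.uncurry]
    rw [norm_mul, norm_mul, show -((⟪ξ - p.2 • v, p.1⟫ : ℝ) : ℂ) * I =
      ((-⟪ξ - p.2 • v, p.1⟫ : ℝ) : ℂ) * I by push_cast; ring,
      Complex.norm_exp_ofReal_mul_I, one_mul, mul_comm]
    exact mul_le_mul_of_nonneg_right (hM _) (norm_nonneg _)

/-- convolution in one direction -/
theorem conv_bound {n : ℕ} (P : ℝ) (hP : 1 < P) (W : ℝ → ℂ) (hWm : Measurable W)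
    (f : E n → ℂ) (hf : Measurable f) (v : E n) :
    ∫⁻ ξ, ‖∫ τ, W τ * f (ξ - τ • v)‖ₑ ^ P ≤ (∫⁻ τ, ‖W τ‖ₑ) ^ P * ∫⁻ ξ, ‖f ξ‖ₑ ^ P := by
  have hP0 : 0 < P := by linarith
  set μ : Measure ℝ := volume.withDensity fun τ => ‖W τ‖ₑ with hμ
  have hWe : Measurable fun τ => ‖W τ‖ₑ := hWm.enorm
  set w : ℝ≥0∞ := ∫⁻ τ, ‖W τ‖ₑ with hw
  have hμu : μ univ = w := by rw [hμ, withDensity_apply _ MeasurableSet.univ, setLIntegral_univ]
  have hsub : Measurable fun p : E n × ℝ => p.1 - p.2 • v := by fun_prop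
  have hfj : Measurable fun p : E n × ℝ => ‖f (p.1 - p.2 • v)‖ₑ := (hf.comp hsub).enorm
  have hfs : ∀ ξ : E n, Measurable fun τ : ℝ => ‖f (ξ - τ • v)‖ₑ := fun ξ =>
    hfj.comp measurable_prodMk_left
  have hpq : P.HolderConjugate (P / (P - 1)) := Real.HolderConjugate.conjExponent hP
  have h1 : ∀ ξ : E n, ‖∫ τ, W τ * f (ξ - τ • v)‖ₑ ^ P ≤
      w ^ (P - 1) * ∫⁻ τ, ‖f (ξ - τ • v)‖ₑ ^ P ∂μ := by
    intro ξ
    have h2 : ‖∫ τ, W τ * f (ξ - τ • v)‖ₑ ≤ ∫⁻ τ, ‖f (ξ - τ • v)‖ₑ ∂μ := by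
      refine (enorm_integral_le_lintegral_enorm _).trans (le_of_eq ?_)
      rw [hμ, lintegral_withDensity_eq_lintegral_mul _ hWe (hfs ξ)]
      refine lintegral_congr fun τ => ?_
      rw [enorm_mul]
      rfl
    have h3 := ENNReal.lintegral_mul_le_Lp_mul_Lq μ hpq (f := fun τ => ‖f (ξ - τ • v)‖ₑ)
      (g := fun _ => (1 : ℝ≥0∞)) (hfs ξ).aemeasurable aemeasurable_const
    simp only [Pi.mul_apply, mul_one, ENNReal.one_rpow, lintegral_one, hμu] at h3
    calc ‖∫ τ, W τ * f (ξ - τ • v)‖ₑ ^ P ≤ ((∫⁻ τ, ‖f (ξ - τ • v)‖ₑ ^ P ∂μ) ^ (1 / P) *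
          w ^ (1 / (P / (P - 1)))) ^ P := ENNReal.rpow_le_rpow (h2.trans h3) hP0.le
      _ = _ := by
          rw [ENNReal.mul_rpow_of_nonneg _ _ hP0.le, ← ENNReal.rpow_mul, ← ENNReal.rpow_mul,
            one_div_mul_cancel hP0.ne', ENNReal.rpow_one, mul_comm]
          congr 2
          field_simp
  calc ∫⁻ ξ, ‖∫ τ, W τ * f (ξ - τ • v)‖ₑ ^ P
      ≤ ∫⁻ ξ, w ^ (P - 1) * ∫⁻ τ, ‖f (ξ - τ • v)‖ₑ ^ P ∂μ := lintegral_mono h1
    _ = w ^ (P - 1) * ∫⁻ ξ, ∫⁻ τ, ‖f (ξ - τ • v)‖ₑ ^ P ∂μ := by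
        rw [lintegral_const_mul]
        have h6 : SFinite μ := by rw [hμ]; infer_instance
        exact (hfj.pow_const P).lintegral_prod_right'
    _ = w ^ (P - 1) * ∫⁻ τ, (∫⁻ ξ, ‖f (ξ - τ • v)‖ₑ ^ P) ∂μ := by
        congr 1
        have h6 : SFinite μ := by rw [hμ]; infer_instance
        exact lintegral_lintegral_swap (hfj.pow_const P).aemeasurable
    _ = w ^ (P - 1) * ∫⁻ _τ, (∫⁻ ξ, ‖f ξ‖ₑ ^ P) ∂μ := by
        congr 1
        refine lintegral_congr fun τ => ?_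
        exact lintegral_sub_right_eq_self (fun ξ => ‖f ξ‖ₑ ^ P) (τ • v)
    _ = w ^ (P - 1) * ((∫⁻ ξ, ‖f ξ‖ₑ ^ P) * w) := by rw [lintegral_const, hμu]
    _ = _ := by
        have : w ^ P = w ^ (P - 1) * w := by
          nth_rewrite 3 [← ENNReal.rpow_one w]
          rw [← ENNReal.rpow_add_of_nonneg _ _ (by linarith) zero_le_one, sub_add_cancel]
        rw [this]
        ring

end Pool.Agent.Y61.MB
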