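import Mathlib
import Pool.Agent.Y61.MB.M6
set_option autoImplicit false

/-! Transference for a single density. -/

namespace Pool.Agent.Y61.MB

open MeasureTheory Set Metric Complex Filter
open Pool.Agent.TH335.RF hiding P1_J P2_J
open Pool.Agent.H438R2.BR (J J_mp J_inner)
open Pool.Agent.H438R2.BR.T10 (e0 e0_norm)
open Pool.Agent.H438R2.PD (P1 P2 P1_meas P2_meas T_meas' T_comp P1_J P2_J)
open Pool.Agent.H789R2.FR (E sg T sg_finite sg_ae)
open scoped ENNReal RealInnerProductSpace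

variable {m : ℕ}

/-- the unit vector of the first coordinate -/
noncomputable def v0 (m : ℕ) : E (1 + m) := J e0 0

theorem v0_inner (z : E (1 + m)) : (⟪v0 m, z⟫ : ℝ) = (P1 1 m z) 0 := by
  have h1 : J (P1 1 m z) (P2 1 m z) = z := by
    ext i
    refine Fin.addCases (fun j => ?_) (fun j => ?_) i
    · simp [J, Fin.append_left, P1]
    · simp [J, Fin.append_right, P2]
  have h2 := J_inner e0 (P1 1 m z) (0 : E m) (P2 1 m z)
  rw [h1] at h2
  unfold v0
  rw [h2, inner_zero_left, add_zero]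
  simp [e0, EuclideanSpace.inner_single_left]

theorem co_le_one (z : E (1 + m)) (hz : ‖z‖ = 1) : (P1 1 m z) 0 ≤ 1 := by
  rw [← v0_inner]
  have h1 : ‖v0 m‖ = 1 := by
    have h2 := J_inner e0 e0 (0 : E m) 0
    rw [real_inner_self_eq_norm_sq, real_inner_self_eq_norm_sq, e0_norm, inner_zero_left] at h2
    unfold v0
    nlinarith [norm_nonneg (J e0 (0 : E m))]
  calc (⟪v0 m, z⟫ : ℝ) ≤ ‖v0 m‖ * ‖z‖ := real_inner_le_norm _ _
    _ = 1 := by rw [h1, hz, one_mul]

/-- the density with a power of the first coordinate -/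
theorem gu_bound (k : ℕ) (hk : 2 ≤ k) (P : ℝ) (hP : 1 < P) :
    ∃ C : ℝ, 0 < C ∧ ∀ F : E m → ℂ, Measurable F → (∀ y, ‖F y‖ ≤ 1) →
      ∫⁻ z, ‖T (gu k F) z‖ₑ ^ P ≤
        ENNReal.ofReal C * ∫⁻ z, ‖T (fun z : E (1 + m) => F (P2 1 m z)) z‖ₑ ^ P := by
  have hP0 : 0 < P := by linarith
  have hk' : (2 : ℝ) ≤ k := by exact_mod_cast hk
  set α : ℝ := ((k : ℝ) - 1) / 2 with hα
  have hα0 : 0 < α := by rw [hα]; linarith
  obtain ⟨W, hWc, hW, hch⟩ := ch_fourier α
  set w : ℝ := ∫ τ, ‖W τ‖ with hw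
  have hw0 : 0 ≤ w := integral_nonneg fun τ => norm_nonneg _
  have hwe : ∫⁻ τ, ‖W τ‖ₑ = ENNReal.ofReal w := by
    rw [hw, ofReal_integral_norm_eq_lintegral_enorm hW]
  have hchb : ∀ u, ‖((ch α u : ℝ) : ℂ)‖ ≤ w := by
    intro u
    rw [hch, hw]
    refine (norm_integral_le_integral_norm _).trans (le_of_eq ?_)
    refine integral_congr_ae (Filter.Eventually.of_forall fun τ => ?_)
    simp only
    rw [norm_mul, Complex.norm_exp_ofReal_mul_I, mul_one]
  -- the geometric series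
  set ρ : ℝ := (2 : ℝ) ^ (-α) with hρ
  have hρ0 : 0 < ρ := by positivity
  have hρ1 : ρ < 1 := Real.rpow_lt_one_of_one_lt_of_neg (by norm_num) (by linarith)
  have hρj : ∀ j : ℕ, (2 : ℝ) ^ (-(α * j)) = ρ ^ j := by
    intro j
    rw [hρ, ← Real.rpow_natCast, ← Real.rpow_mul (by norm_num)]
    congr 1
    ring
  have hsum : Summable fun j : ℕ => ρ ^ j := summable_geometric_of_lt_one hρ0.le hρ1
  set S : ℝ := ∑' j : ℕ, ρ ^ j with hS
  have hS0 : 0 ≤ S := tsum_nonneg fun j => by positivity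
  refine ⟨(S * w) ^ P + 1, by positivity, fun F hFm hF => ?_⟩
  set G : E (1 + m) → ℂ := fun z => F (P2 1 m z) with hG
  have hGm : Measurable G := hFm.comp (P2_meas 1 m)
  have hGb : ∀ z, ‖G z‖ ≤ 1 := fun z => hF _
  have hTG : Measurable (T G) := T_meas' G hGm
  set Gj : ℕ → E (1 + m) → ℂ := fun j z =>
    ((ch α ⟪(2 : ℝ) ^ j • v0 m, z⟫ : ℝ) : ℂ) * G z with hGj
  have hchm : Measurable (ch α) := (ch_smooth α).continuous.measurable
  have hGjm : ∀ j, Measurable (Gj j) := by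
    intro j
    have h2 : Measurable fun z : E (1 + m) => (⟪(2 : ℝ) ^ j • v0 m, z⟫ : ℝ) :=
      (by fun_prop : Continuous _).measurable
    exact (Complex.measurable_ofReal.comp (hchm.comp h2)).mul hGm
  have hGjb : ∀ j z, ‖Gj j z‖ ≤ w := by
    intro j z
    rw [hGj]
    simp only [norm_mul]
    calc _ ≤ w * 1 := mul_le_mul (hchb _) (hGb z) (norm_nonneg _) hw0
      _ = w := mul_one w
  have hTGj : ∀ j ξ, T (Gj j) ξ = ∫ τ, W τ * T G (ξ - τ • ((2 : ℝ) ^ j • v0 m)) := by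
    intro j ξ
    exact T_mult (fun u => ((ch α u : ℝ) : ℂ)) W hWc hW hch ((2 : ℝ) ^ j • v0 m) G hGm 1 hGb ξ
  have hTGjm : ∀ j, Measurable (T (Gj j)) := fun j => T_meas' _ (hGjm j)
  have hTGjP : ∀ j, ∫⁻ ξ, ‖T (Gj j) ξ‖ₑ ^ P ≤ ENNReal.ofReal w ^ P * ∫⁻ ξ, ‖T G ξ‖ₑ ^ P := by
    intro j
    simp only [hTGj]
    have h1 := conv_bound P hP W hWc.measurable (T G) hTG ((2 : ℝ) ^ j • v0 m)
    rwa [hwe] at h1
  -- the density as a series
  have hser : ∀ z : E (1 + m), ‖z‖ = 1 → gu k F z = ∑' j : ℕ, ((ρ ^ j : ℝ) : ℂ) * Gj j z := by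
    intro z hz
    have h1 := co_le_one z hz
    have h2 := (ch_sum α h1).mapL Complex.ofRealCLM
    have h3 := h2.mul_right (G z)
    have h4 : (fun j : ℕ => ((ρ ^ j : ℝ) : ℂ) * Gj j z) = fun j : ℕ =>
        Complex.ofRealCLM ((2 : ℝ) ^ (-(α * j)) * ch α (2 ^ j * (P1 1 m z) 0)) * G z := by
      funext j
      rw [hGj]
      simp only [Complex.ofRealCLM_apply, hρj, real_inner_smul_left, v0_inner]
      push_cast
      ring
    rw [h4, h3.tsum_eq]
    unfold gu
    by_cases h0 : 0 < (P1 1 m z) 0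
    · have hmem : z ∈ {z : E (1 + m) | 0 < (P1 1 m z) 0 ∧ (P1 1 m z) 0 ≤ 1} := ⟨h0, h1⟩
      rw [indicator_of_mem hmem, if_pos h0]
      rfl
    · have hmem : z ∉ {z : E (1 + m) | 0 < (P1 1 m z) 0 ∧ (P1 1 m z) 0 ≤ 1} := fun h => h0 h.1
      rw [indicator_of_notMem hmem, if_neg h0, map_zero, zero_mul]
  have hfin : IsFiniteMeasure (sg (1 + m)) := sg_finite _
  have hTsum : ∀ ξ, T (gu k F) ξ = ∑' j : ℕ, ((ρ ^ j : ℝ) : ℂ) * T (Gj j) ξ := by
    intro ξ
    have e1 : T (gu k F) ξ = ∫ z, ∑' j : ℕ, ((ρ ^ j : ℝ) : ℂ) *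
        (Complex.exp (-((⟪ξ, z⟫ : ℝ) : ℂ) * I) * Gj j z) ∂(sg (1 + m)) := by
      unfold T
      refine integral_congr_ae ?_
      filter_upwards [sg_ae (1 + m)] with z hz
      rw [hser z hz, ← tsum_mul_left]
      refine tsum_congr fun j => ?_
      ring
    rw [e1, integral_tsum]
    · refine tsum_congr fun j => ?_
      rw [integral_const_mul]
      rfl
    · intro j
      exact ((T_integrable (Gj j) (hGjm j) w (hGjb j) ξ).aestronglyMeasurable).const_mul _
    · have h5 : ∑' j : ℕ, ∫⁻ z, ‖((ρ ^ j : ℝ) : ℂ) *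
          (Complex.exp (-((⟪ξ, z⟫ : ℝ) : ℂ) * I) * Gj j z)‖ₑ ∂(sg (1 + m)) ≤
          ∑' j : ℕ, ENNReal.ofReal (ρ ^ j * w) * sg (1 + m) univ := by
        apply ENNReal.tsum_le_tsum
        intro j
        calc _ ≤ ∫⁻ _z, ENNReal.ofReal (ρ ^ j * w) ∂(sg (1 + m)) := by
              apply lintegral_mono
              intro z
              simp only
              rw [← ofReal_norm]
              apply ENNReal.ofReal_le_ofReal
              rw [norm_mul, norm_mul, Complex.norm_real, Real.norm_of_nonneg (by positivity),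
                show -((⟪ξ, z⟫ : ℝ) : ℂ) * I = ((-⟪ξ, z⟫ : ℝ) : ℂ) * I by push_cast; ring,
                Complex.norm_exp_ofReal_mul_I, one_mul]
              exact mul_le_mul_of_nonneg_left (hGjb j z) (by positivity)
          _ = _ := by rw [lintegral_const]
      refine (h5.trans_lt ?_).ne
      rw [ENNReal.tsum_mul_right, ← ENNReal.ofReal_tsum_of_nonneg (fun j => by positivity)
        (hsum.mul_right w)]
      exact ENNReal.mul_lt_top ENNReal.ofReal_lt_top (measure_lt_top _ _)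
  set N : ℝ≥0∞ := ∫⁻ ξ, ‖T G ξ‖ₑ ^ P with hN
  calc ∫⁻ z, ‖T (gu k F) z‖ₑ ^ P ≤ ∫⁻ z, (∑' j : ℕ, ‖((ρ ^ j : ℝ) : ℂ) * T (Gj j) z‖ₑ) ^ P := by
        apply lintegral_mono
        intro z
        simp only
        rw [hTsum]
        exact ENNReal.rpow_le_rpow enorm_tsum_le_tsum_enorm hP0.le
    _ ≤ (∑' j : ℕ, (∫⁻ z, ‖((ρ ^ j : ℝ) : ℂ) * T (Gj j) z‖ₑ ^ P) ^ (1 / P)) ^ P :=
        mink volume P hP.le _ fun j => ((hTGjm j).const_mul _).enorm
    _ ≤ (∑' j : ℕ, ENNReal.ofReal (ρ ^ j * w) * N ^ (1 / P)) ^ P := by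
        apply ENNReal.rpow_le_rpow _ hP0.le
        apply ENNReal.tsum_le_tsum
        intro j
        calc (∫⁻ z, ‖((ρ ^ j : ℝ) : ℂ) * T (Gj j) z‖ₑ ^ P) ^ (1 / P)
            ≤ (ENNReal.ofReal (ρ ^ j) ^ P * (ENNReal.ofReal w ^ P * N)) ^ (1 / P) := by
              apply ENNReal.rpow_le_rpow _ (by positivity)
              calc ∫⁻ z, ‖((ρ ^ j : ℝ) : ℂ) * T (Gj j) z‖ₑ ^ P =
                    ∫⁻ z, ENNReal.ofReal (ρ ^ j) ^ P * ‖T (Gj j) z‖ₑ ^ P := by
                    refine lintegral_congr fun z => ?_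
                    rw [enorm_mul, ENNReal.mul_rpow_of_nonneg _ _ hP0.le, ← ofReal_norm,
                      Complex.norm_real, Real.norm_of_nonneg (by positivity)]
                _ = ENNReal.ofReal (ρ ^ j) ^ P * ∫⁻ z, ‖T (Gj j) z‖ₑ ^ P :=
                    lintegral_const_mul' _ _ (ENNReal.rpow_ne_top_of_nonneg hP0.le
                      ENNReal.ofReal_ne_top)
                _ ≤ _ := by
                    gcongr
                    exact hTGjP j
          _ = _ := by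
              rw [ENNReal.mul_rpow_of_nonneg _ _ (by positivity),
                ENNReal.mul_rpow_of_nonneg _ _ (by positivity), ← ENNReal.rpow_mul,
                ← ENNReal.rpow_mul, mul_one_div_cancel hP0.ne', ENNReal.rpow_one,
                ENNReal.rpow_one, ← mul_assoc, ← ENNReal.ofReal_mul (by positivity)]
    _ = ENNReal.ofReal ((S * w) ^ P) * N := by
        rw [ENNReal.tsum_mul_right, ← ENNReal.ofReal_tsum_of_nonneg (fun j => by positivity)
          (hsum.mul_right w), tsum_mul_right, ENNReal.mul_rpow_of_nonneg _ _ hP0.le,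
          ← ENNReal.rpow_mul, one_div_mul_cancel hP0.ne', ENNReal.rpow_one,
          ENNReal.ofReal_rpow_of_nonneg (by positivity) hP0.le]
    _ ≤ _ := by
        gcongr
        linarith

/-- transference for a single density -/
theorem transfer (k : ℕ) (hk : 2 ≤ k) (hm : 1 ≤ m) (P q : ℝ) (hP : 2 < P)
    (h : 1 < (q - 2) * (((k : ℝ) - 1) / 2 + 1 / (P - 2))) :
    ∃ C : ℝ, 0 < C ∧ ∀ F : E m → ℂ, Measurable F → ∀ M K : ℝ, 0 ≤ K → (∀ y, ‖F y‖ ≤ M) →
      ∫⁻ z, ‖T (fun z : E (1 + m) => F (P2 1 m z)) z‖ₑ ^ P ≤ ENNReal.ofReal (K ^ P) →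
      ∫⁻ z, ‖T (fun z : E (k + m) => F (P2 k m z)) z‖ₑ ^ q ≤ ENNReal.ofReal (C * (M + K) ^ q) := by
  have hk' : (2 : ℝ) ≤ k := by exact_mod_cast hk
  have hP0 : 0 < P := by linarith
  have hq : 0 < q := by
    by_contra hc
    have h1 : 0 < 1 / (P - 2) := one_div_pos.2 (by linarith)
    have h2 : (q - 2) * (((k : ℝ) - 1) / 2 + 1 / (P - 2)) ≤ 0 :=
      mul_nonpos_of_nonpos_of_nonneg (by linarith) (by linarith)
    linarith
  obtain ⟨C1, hC1, hgu⟩ := gu_bound (m := m) k hk P (by linarith)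
  set Cl : (E m → ℂ) → Prop := fun F =>
    ∫⁻ z, ‖T (fun z : E (1 + m) => F (P2 1 m z)) z‖ₑ ^ P ≤ ENNReal.ofReal 1 with hCl
  set Dl : (E (1 + m) → ℂ) → Prop := fun g => ∫⁻ z, ‖T g z‖ₑ ^ P ≤ ENNReal.ofReal C1 with hDl
  obtain ⟨C, hC, hT⟩ := T_boundC Cl k hk hm P q hP
    (hyp_of_restC Cl Dl k hk hm P ⟨C1, hC1, fun g _ _ hg => hg⟩ (fun F hFm hF hFC => by
      refine (hgu F hFm hF).trans ?_
      calc ENNReal.ofReal C1 * ∫⁻ z, ‖T (fun z : E (1 + m) => F (P2 1 m z)) z‖ₑ ^ P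
          ≤ ENNReal.ofReal C1 * ENNReal.ofReal 1 := by gcongr
        _ = _ := by rw [ENNReal.ofReal_one, mul_one])) h
  refine ⟨C, hC, fun F hFm M K hK hM hFK => ?_⟩
  have hM0 : 0 ≤ M := (norm_nonneg _).trans (hM 0)
  rcases (add_nonneg hM0 hK).eq_or_lt with h0 | h0
  · -- F = 0
    have hM00 : M = 0 := by linarith
    have hF0 : ∀ y, F y = 0 := fun y => norm_le_zero_iff.1 (by rw [← hM00]; exact hM y)
    have : ∀ z, T (fun z : E (k + m) => F (P2 k m z)) z = 0 := by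
      intro z
      unfold T
      simp [hF0]
    simp only [this, enorm_zero, ENNReal.zero_rpow_of_pos hq, lintegral_zero]
    exact zero_le
  · set a : ℝ := (M + K)⁻¹ with ha
    have ha0 : 0 < a := by positivity
    set F' : E m → ℂ := fun y => (a : ℂ) * F y with hF'
    have hTs : ∀ {n : ℕ} (G : E n → ℂ) (z : E n), T (fun x => (a : ℂ) * G x) z = (a : ℂ) * T G z := by
      intro n G z
      unfold T
      rw [← integral_const_mul]
      refine integral_congr_ae (Filter.Eventually.of_forall fun x => ?_)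
      ring
    have hen : ∀ (x : ℂ) (s : ℝ), 0 ≤ s → ‖(a : ℂ) * x‖ₑ ^ s = ENNReal.ofReal (a ^ s) * ‖x‖ₑ ^ s := by
      intro x s hs
      rw [enorm_mul, ENNReal.mul_rpow_of_nonneg _ _ hs, ← ofReal_norm (a : ℂ), Complex.norm_real,
        Real.norm_of_nonneg ha0.le, ENNReal.ofReal_rpow_of_nonneg ha0.le hs]
    have h1 := hT F' (hFm.const_mul _) (by
      intro y
      rw [hF']
      simp only [norm_mul, Complex.norm_real, Real.norm_of_nonneg ha0.le]
      rw [ha, inv_mul_le_iff₀ h0, mul_one]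
      exact (hM y).trans (by linarith)) (by
      rw [hCl]
      simp only
      have e1 : (fun z : E (1 + m) => F' (P2 1 m z)) = fun z => (a : ℂ) * F (P2 1 m z) := rfl
      rw [e1]
      simp only [hTs, hen _ P hP0.le]
      rw [lintegral_const_mul' _ _ ENNReal.ofReal_ne_top]
      calc ENNReal.ofReal (a ^ P) * ∫⁻ z, ‖T (fun z : E (1 + m) => F (P2 1 m z)) z‖ₑ ^ P
          ≤ ENNReal.ofReal (a ^ P) * ENNReal.ofReal (K ^ P) := by gcongr
        _ ≤ ENNReal.ofReal 1 := by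
            rw [← ENNReal.ofReal_mul (by positivity), ← Real.mul_rpow ha0.le hK]
            apply ENNReal.ofReal_le_ofReal
            apply Real.rpow_le_one (by positivity) _ hP0.le
            rw [ha, inv_mul_le_iff₀ h0, mul_one]
            linarith)
    have e2 : (fun z : E (k + m) => F' (P2 k m z)) = fun z => (a : ℂ) * F (P2 k m z) := rfl
    rw [e2] at h1
    simp only [hTs, hen _ q hq.le] at h1
    rw [lintegral_const_mul' _ _ ENNReal.ofReal_ne_top] at h1
    calc ∫⁻ z, ‖T (fun z : E (k + m) => F (P2 k m z)) z‖ₑ ^ q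
        = ENNReal.ofReal ((M + K) ^ q) * (ENNReal.ofReal (a ^ q) *
          ∫⁻ z, ‖T (fun z : E (k + m) => F (P2 k m z)) z‖ₑ ^ q) := by
          rw [← mul_assoc, ← ENNReal.ofReal_mul (by positivity), ← Real.mul_rpow h0.le ha0.le, ha,
            mul_inv_cancel₀ h0.ne', Real.one_rpow, ENNReal.ofReal_one, one_mul]
      _ ≤ ENNReal.ofReal ((M + K) ^ q) * ENNReal.ofReal C := by gcongr
      _ = _ := by rw [← ENNReal.ofReal_mul (by positivity), mul_comm]

end Pool.Agent.Y61.MB
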