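import Mathlib
import Pool.Agent.Y61.MB.M7
set_option autoImplicit false

/-! Densities which depend on `m` coordinates in an orthonormal frame. -/

namespace Pool.Agent.Y61.MB

open MeasureTheory Set Metric Complex Filter
open Pool.Agent.TH335.RF hiding P1_J P2_J
open Pool.Agent.H438R2.PD (P1 P2 P1_meas P2_meas T_meas' T_comp P1_J P2_J)
open Pool.Agent.H789R2.FR (E sg T sg_finite sg_ae)
open scoped ENNReal RealInnerProductSpace

/-- the coordinates of `x` with respect to the vectors `v i` -/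
noncomputable def co {n m : ℕ} (v : Fin m → E n) (x : E n) : E m := WithLp.toLp 2 fun i => ⟪v i, x⟫

theorem co_meas' {n m : ℕ} (v : Fin m → E n) : Measurable (co v) := by
  unfold co
  fun_prop

theorem co_norm {n m : ℕ} (v : Fin m → E n) (hv : Orthonormal ℝ v) (x : E n) :
    ‖co v x‖ ≤ ‖x‖ := by
  have h1 : ‖co v x‖ ^ 2 ≤ ‖x‖ ^ 2 := by
    rw [EuclideanSpace.real_norm_sq_eq]
    have h2 := hv.sum_inner_products_le (s := Finset.univ) x
    refine le_trans (le_of_eq ?_) h2
    refine Finset.sum_congr rfl fun i _ => ?_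
    rw [Real.norm_eq_abs, sq_abs]
    rfl
  exact (sq_le_sq₀ (norm_nonneg _) (norm_nonneg _)).1 h1

theorem frame {k m N : ℕ} (hN : N = k + m) (v : Fin m → E N) (hv : Orthonormal ℝ v) (q : ℝ)
    (F : E m → ℂ) (hF : Measurable F) :
    ∫⁻ z, ‖T (fun x : E N => F (co v x)) z‖ₑ ^ q =
      ∫⁻ z, ‖T (fun z : E (k + m) => F (P2 k m z)) z‖ₑ ^ q := by
  subst hN
  set v' : Fin (k + m) → E (k + m) := Fin.addCases (fun _ => 0) v with hv'
  obtain ⟨b, hb⟩ := Orthonormal.exists_orthonormalBasis_extension_of_card_eq (𝕜 := ℝ)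
    (ι := Fin (k + m)) (E := E (k + m)) (by simp) (v := v') (s := Set.range (Fin.natAdd k)) (by
      have h1 : (Set.range (Fin.natAdd k)).domRestrict v' = v ∘
          (Equiv.ofInjective (Fin.natAdd k) (Fin.natAdd_injective m k)).symm := by
        funext x
        obtain ⟨y, rfl⟩ := (Equiv.ofInjective (Fin.natAdd k) (Fin.natAdd_injective m k)).surjective x
        simp [hv', Set.domRestrict]
      rw [h1]
      exact hv.comp _ (Equiv.injective _))
  have hbv : ∀ i, b (Fin.natAdd k i) = v i := by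
    intro i
    rw [hb _ ⟨i, rfl⟩, hv']
    simp
  have hco : ∀ x : E (k + m), co v x = P2 k m (b.repr x) := by
    intro x
    ext i
    change (⟪v i, x⟫ : ℝ) = (b.repr x) (Fin.natAdd k i)
    rw [b.repr_apply_apply, hbv]
  simp only [hco]
  have hGm : Measurable fun z : E (k + m) => F (P2 k m z) := hF.comp (P2_meas k m)
  have h1 : ∀ z, T (fun x : E (k + m) => F (P2 k m (b.repr x))) z =
      T (fun z : E (k + m) => F (P2 k m z)) (b.repr z) := fun z =>
    T_comp b.repr (fun z : E (k + m) => F (P2 k m z)) z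
  simp only [h1]
  exact b.repr.measurePreserving.lintegral_comp ((T_meas' _ hGm).enorm.pow_const q)

/-- transference, in terms of the Fourier transform -/
theorem transfer_ft (n m : ℕ) (hm : 1 ≤ m) (hmn : m + 2 ≤ n) (P q : ℝ) (hP : 2 < P)
    (h : 1 < (q - 2) * (((n : ℝ) - m - 1) / 2 + 1 / (P - 2))) :
    ∃ C : ℝ, 0 < C ∧ ∀ F : E m → ℂ, Measurable F → ∀ M K : ℝ, 0 ≤ K →
      (∀ y, ‖y‖ ≤ 1 → ‖F y‖ ≤ M) →
      ∀ (u : Fin m → E (m + 1)) (v : Fin m → E n), Orthonormal ℝ u → Orthonormal ℝ v →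
      eLpNorm (ft fun x : sphere (0 : E (m + 1)) 1 => F (co u x)) (ENNReal.ofReal P) ≤
        ENNReal.ofReal K →
      MemLp (ft fun x : sphere (0 : E n) 1 => F (co v x)) (ENNReal.ofReal q) ∧
      eLpNorm (ft fun x : sphere (0 : E n) 1 => F (co v x)) (ENNReal.ofReal q) ≤
        ENNReal.ofReal (C * (M + K)) := by
  obtain ⟨k, rfl⟩ : ∃ k, n = k + m := ⟨n - m, by omega⟩
  have hk : 2 ≤ k := by omega
  have hk' : (2 : ℝ) ≤ k := by exact_mod_cast hk
  have hP0 : 0 < P := by linarith
  have hcast : ((k + m : ℕ) : ℝ) - m - 1 = (k : ℝ) - 1 := by push_cast; ring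
  rw [hcast] at h
  have hq : 0 < q := by
    by_contra hc
    have h1 : 0 < 1 / (P - 2) := one_div_pos.2 (by linarith)
    have h2 : (q - 2) * (((k : ℝ) - 1) / 2 + 1 / (P - 2)) ≤ 0 :=
      mul_nonpos_of_nonpos_of_nonneg (by linarith) (by linarith)
    linarith
  obtain ⟨C, hC, hT⟩ := transfer (m := m) k hk hm P q hP h
  set D : ℝ := max 1 (((2 * Real.pi) ^ (m + 1)) ^ (1 / P)) with hD
  have hD1 : 1 ≤ D := le_max_left _ _
  refine ⟨C ^ (1 / q) * D, by positivity, ?_⟩
  intro F hFm M K hK hM u v hu hv hFK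
  have hM0 : 0 ≤ M := (norm_nonneg _).trans (hM 0 (by simp))
  -- truncate
  set F1 : E m → ℂ := (closedBall (0 : E m) 1).indicator F with hF1
  have hF1m : Measurable F1 := hFm.indicator measurableSet_closedBall
  have hF1M : ∀ y, ‖F1 y‖ ≤ M := by
    intro y
    by_cases hy : y ∈ closedBall (0 : E m) 1
    · rw [hF1, indicator_of_mem hy]
      exact hM y (by simpa using hy)
    · rw [hF1, indicator_of_notMem hy, norm_zero]
      exact hM0
  have hF1eq : ∀ {N : ℕ} (w : Fin m → E N), Orthonormal ℝ w → ∀ x : sphere (0 : E N) 1,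
      F (co w x) = F1 (co w x) := by
    intro N w hw x
    have h1 := co_norm w hw (x : E N)
    have h2 : ‖(x : E N)‖ = 1 := by simp
    rw [h2] at h1
    rw [hF1, indicator_of_mem (by simpa using h1)]
  have e1 : (fun x : sphere (0 : E (m + 1)) 1 => F (co u x)) =
      fun x : sphere (0 : E (m + 1)) 1 => F1 (co u x) :=
    funext fun x => hF1eq u hu x
  have e2 : (fun x : sphere (0 : E (k + m)) 1 => F (co v x)) =
      fun x : sphere (0 : E (k + m)) 1 => F1 (co v x) :=
    funext fun x => hF1eq v hv x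
  rw [e1] at hFK
  rw [e2]
  have h1 := T_of_ft P hP0 (fun x : E (m + 1) => F1 (co u x)) (hF1m.comp (co_meas' u)) K hK hFK
  rw [frame (k := 1) (add_comm m 1) u hu P F1 hF1m] at h1
  have h2 : ∫⁻ z, ‖T (fun z : E (1 + m) => F1 (P2 1 m z)) z‖ₑ ^ P ≤
      ENNReal.ofReal ((D * K) ^ P) := by
    refine h1.trans (ENNReal.ofReal_le_ofReal ?_)
    rw [Real.mul_rpow (by positivity) hK]
    apply mul_le_mul_of_nonneg_right _ (by positivity)
    calc (2 * Real.pi) ^ (m + 1) = (((2 * Real.pi) ^ (m + 1)) ^ (1 / P)) ^ P := by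
          rw [← Real.rpow_mul (by positivity), one_div_mul_cancel hP0.ne', Real.rpow_one]
      _ ≤ D ^ P := Real.rpow_le_rpow (by positivity) (le_max_right _ _) hP0.le
  have h3 := hT F1 hF1m M (D * K) (by positivity) hF1M h2
  rw [← frame (k := k) rfl v hv q F1 hF1m] at h3
  obtain ⟨hmeas, h4⟩ := ft_int_le q (fun x : sphere (0 : E (k + m)) 1 => F1 (co v x))
    (fun x : E (k + m) => F1 (co v x)) (hF1m.comp (co_meas' v))
    (Filter.Eventually.of_forall fun x => rfl)
  have hnorm : eLpNorm (ft fun x : sphere (0 : E (k + m)) 1 => F1 (co v x)) (ENNReal.ofReal q) ≤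
      ENNReal.ofReal (C ^ (1 / q) * D * (M + K)) := by
    rw [eLpNorm_eq_lintegral_rpow_enorm_toReal (by simpa using hq) ENNReal.ofReal_ne_top,
      ENNReal.toReal_ofReal hq.le]
    refine (ENNReal.rpow_le_rpow (h4.trans h3) (by positivity)).trans ?_
    rw [ENNReal.ofReal_rpow_of_nonneg (by positivity) (by positivity)]
    apply ENNReal.ofReal_le_ofReal
    rw [Real.mul_rpow hC.le (by positivity), ← Real.rpow_mul (by positivity),
      mul_one_div_cancel hq.ne', Real.rpow_one, mul_assoc]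
    apply mul_le_mul_of_nonneg_left _ (by positivity)
    nlinarith
  exact ⟨⟨hmeas.aestronglyMeasurable, hnorm.trans_lt ENNReal.ofReal_lt_top⟩, hnorm⟩

end Pool.Agent.Y61.MB
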