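import Mathlib
import Pool.Agent.Y61.MB.M8
import Pool.Agent.Results.MP_6cbfb8_an.AveragedAllDimensions
set_option autoImplicit false

/-! Dilations of a function of `m` coordinates. -/

namespace Pool.Agent.Y61.MB

open MeasureTheory Set Metric Complex Filter
open Pool.Agent.H438R2.PD (P1 P2 P1_meas P2_meas T_meas' T_comp P1_J P2_J)
open Pool.Agent.H789R2.FR (E sg T sg_finite sg_ae)
open Pool.Agent.Results.MP_6cbfb8_an.AveragedAllDimensions (dil FT)
open scoped ENNReal RealInnerProductSpace

/-- the dilated function on `ℝ^m` -/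
noncomputable def dl {m : ℕ} (l : Fin m → ℝ) (f : E m → ℂ) (y : E m) : ℂ :=
  if ∑ j, (y j / l j) ^ 2 < 1 then f (WithLp.toLp 2 fun j => y j / l j) else 0

/-- the first `m` coordinate vectors -/
noncomputable def u0 (m : ℕ) (j : Fin m) : E (m + 1) := EuclideanSpace.single j.castSucc 1

theorem u0_orth (m : ℕ) : Orthonormal ℝ (u0 m) := by
  have h := (EuclideanSpace.basisFun (Fin (m + 1)) ℝ).orthonormal.comp Fin.castSucc
    (Fin.castSucc_injective m)
  have e : (fun i => EuclideanSpace.basisFun (Fin (m + 1)) ℝ i) ∘ Fin.castSucc = u0 m := by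
    funext j
    simp [u0]
  rw [← e]
  exact h

theorem co_u0 {m : ℕ} (x : E (m + 1)) : co (u0 m) x = WithLp.toLp 2 fun j => x j.castSucc := by
  unfold co u0
  congr 1
  funext j
  simp [EuclideanSpace.inner_single_left]

/-- the reflection in the last coordinate -/
noncomputable def Rf (m : ℕ) : E (m + 1) ≃ₗᵢ[ℝ] E (m + 1) :=
  (ℝ ∙ (EuclideanSpace.single (Fin.last m) (1 : ℝ) : E (m + 1)))ᗮ.reflection

theorem Rf_apply {m : ℕ} (x : E (m + 1)) : Rf m x =
    x - (2 * x (Fin.last m)) • (EuclideanSpace.single (Fin.last m) (1 : ℝ) : E (m + 1)) := by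
  unfold Rf
  rw [Submodule.reflection_orthogonal_apply, Submodule.reflection_singleton_apply]
  simp [EuclideanSpace.inner_single_left, two_mul, add_smul, two_smul]

theorem Rf_castSucc {m : ℕ} (x : E (m + 1)) (j : Fin m) : (Rf m x) j.castSucc = x j.castSucc := by
  rw [Rf_apply]
  simp [(Fin.castSucc_lt_last j).ne]

theorem Rf_last {m : ℕ} (x : E (m + 1)) : (Rf m x) (Fin.last m) = - x (Fin.last m) := by
  rw [Rf_apply]
  simp
  ring

theorem dl_eq {m : ℕ} (l : Fin m → ℝ) (hl : ∀ j, 0 < l j ∧ l j < 1) (f : E m → ℂ) (x : E (m + 1))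
    (hx : ‖x‖ = 1) : dl l f (co (u0 m) x) = dil l f x + dil l f (Rf m x) := by
  rw [co_u0]
  unfold dl dil
  simp only [Rf_castSucc, Rf_last]
  by_cases hs : ∑ j : Fin m, (x j.castSucc / l j) ^ 2 < 1
  · have h0 : x (Fin.last m) ≠ 0 := by
      intro h0
      have h1 : ∑ j : Fin m, x j.castSucc ^ 2 = 1 := by
        have h2 := EuclideanSpace.real_norm_sq_eq x
        rw [hx, Fin.sum_univ_castSucc, h0] at h2
        linarith
      have h3 : ∑ j : Fin m, x j.castSucc ^ 2 ≤ ∑ j : Fin m, (x j.castSucc / l j) ^ 2 := by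
        refine Finset.sum_le_sum fun j _ => ?_
        rw [div_pow, le_div_iff₀ (by have := (hl j).1; positivity)]
        have h4 : l j ^ 2 ≤ 1 := pow_le_one₀ (hl j).1.le (hl j).2.le
        nlinarith [sq_nonneg (x j.castSucc)]
      linarith
    rcases lt_or_gt_of_ne h0 with h | h
    · simp [hs, h, not_lt.2 h.le]
    · simp [hs, h, not_lt.2 h.le]
  · simp [hs]

theorem dil_meas {m : ℕ} (l : Fin m → ℝ) (f : E m → ℂ) (hf : Measurable f) :
    Measurable (dil l f) := by
  have h1 : Measurable fun x : E (m + 1) => f (WithLp.toLp 2 fun j : Fin m => x j.castSucc / l j) := by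
    apply hf.comp
    fun_prop
  have h2 : Measurable fun x : E (m + 1) => x (Fin.last m) := by fun_prop
  have h3 : Measurable fun x : E (m + 1) => ∑ j : Fin m, (x j.castSucc / l j) ^ 2 := by fun_prop
  unfold dil
  exact Measurable.ite ((measurableSet_lt measurable_const h2).inter
    (measurableSet_lt h3 measurable_const)) h1 measurable_const

theorem dl_meas {m : ℕ} (l : Fin m → ℝ) (f : E m → ℂ) (hf : Measurable f) :
    Measurable (dl l f) := by
  have h1 : Measurable fun y : E m => f (WithLp.toLp 2 fun j : Fin m => y j / l j) := by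
    apply hf.comp
    fun_prop
  have h3 : Measurable fun y : E m => ∑ j : Fin m, (y j / l j) ^ 2 := by fun_prop
  unfold dl
  exact Measurable.ite (measurableSet_lt h3 measurable_const) h1 measurable_const

theorem FT_ft {m : ℕ} (g : E (m + 1) → ℂ) :
    FT g = ft fun x : sphere (0 : E (m + 1)) 1 => g (x : E (m + 1)) := by
  funext ξ
  unfold FT ft sigma
  refine integral_congr_ae (Filter.Eventually.of_forall fun x => ?_)
  simp only
  congr 2
  push_cast
  ring

theorem dl_memLp {m : ℕ} (l : Fin m → ℝ) (hl : ∀ j, 0 < l j ∧ l j < 1) (f : E m → ℂ)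
    (hf : Measurable f) (M : ℝ) (hM : ∀ y, ‖f y‖ ≤ M) (p : ℝ≥0∞) (h : MemLp (FT (dil l f)) p) :
    MemLp (ft fun x : sphere (0 : E (m + 1)) 1 => dl l f (co (u0 m) (x : E (m + 1)))) p := by
  have hdm := dil_meas l f hf
  have hM0 : 0 ≤ M := (norm_nonneg _).trans (hM 0)
  have hdb : ∀ x, ‖dil l f x‖ ≤ M := by
    intro x
    unfold dil
    split_ifs
    · exact hM _
    · rw [norm_zero]; exact hM0
  have e1 : (ft fun x : sphere (0 : E (m + 1)) 1 => dl l f (co (u0 m) (x : E (m + 1)))) =
      fun ξ => FT (dil l f) ξ + FT (dil l f) (Rf m ξ) := by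
    funext ξ
    rw [FT_ft]
    have hG : Measurable fun x : E (m + 1) => dil l f x + dil l f (Rf m x) :=
      hdm.add (hdm.comp (Rf m).continuous.measurable)
    rw [ft_eq _ (fun x : E (m + 1) => dil l f x + dil l f (Rf m x)) hG
      (Filter.Eventually.of_forall fun x => dl_eq l hl f (x : E (m + 1)) (by simp)),
      ft_eq _ (dil l f) hdm (Filter.Eventually.of_forall fun x => rfl),
      ft_eq _ (dil l f) hdm (Filter.Eventually.of_forall fun x => rfl), ← map_smul,
      ← T_comp (Rf m) (dil l f)]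
    unfold T
    rw [← integral_add]
    · refine integral_congr_ae (Filter.Eventually.of_forall fun x => ?_)
      simp only
      ring
    · exact T_integrable _ hdm M hdb _
    · exact T_integrable _ (hdm.comp (Rf m).continuous.measurable) M (fun x => hdb _) _
  rw [e1]
  exact h.add (h.comp_measurePreserving (Rf m).measurePreserving)

end Pool.Agent.Y61.MB
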